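import Pool.Agent.Q99.HT.Stm3
import Pool.Agent.Q99.KN.Stm4

/-!
# Highly twisted links on arbitrary planar shadows, part 4: networks of regions

A network has `c` regions; the corners `q : Fin c → Fin 3 → ℤ` run over the points
`(N - 1) q0 + ∑ t_j E_j` of a lattice of rank `d`; the centre is `q0 + ∑ τ_j E_j`.
-/

set_option autoImplicit false

namespace Pool.Agent.Q99.HT

open Finset Filter Topology MeasureTheory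
open Pool.Agent.Q99.FAL (bq hh S_T1)
open Pool.Agent.Q99.KN (sn bc Wk zl ez Fk cz LC bb Gm St ct S_LC S_GAM S_PZ QZ kz th jN S_LAP S_GIM)

/-- a network of `c` regions with a lattice of rank `d` -/
structure Nw (c d : ℕ) where
  E : Fin d → Fin c → Fin 3 → ℤ
  q0 : Fin c → Fin 3 → ℤ
  α : Fin c → Fin 6 → ℝ
  τ : Fin d → ℝ

variable {c d : ℕ}

/-- the centre is a critical point of the sum of the exponents -/
structure Nw.Ok (X : Nw c d) : Prop where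
  fr : ∀ s, Fr (X.α s)
  ac : ∀ s, Acu (X.α s)
  ctr : ∀ s i, qc (X.α s) i = X.q0 s i + ∑ j, X.τ j * X.E j s i
  crit : ∀ j, ∑ s, ∑ i, ml (X.α s) i * X.E j s i = 0
  inj : ∀ t : Fin d → ℝ, (∀ s i, ∑ j, t j * X.E j s i = 0) → t = 0
  zer : ∀ s i, qc (X.α s) i = 0 → X.q0 s i = 0 ∧ ∀ j, X.E j s i = 0

/-- the corners of the lattice point `t` -/
def Nw.q (X : Nw c d) (N : ℕ) (t : Fin d → ℤ) (s : Fin c) : Fin 3 → ℤ :=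
  fun i => ((N : ℤ) - 1) * X.q0 s i + ∑ j, t j * X.E j s i

/-- possible corners of a region -/
def Ps (N : ℕ) (q : Fin 3 → ℤ) : Prop := 0 ≤ q 0 ∧ 0 ≤ q 1 ∧ 0 ≤ q 2 ∧ q 0 + q 1 + q 2 < N

open Classical in
/-- the weight of a region as a function of integral corners -/
noncomputable def Fq (N : ℕ) (w : ℤ) (q : Fin 3 → ℤ) : ℂ :=
  if Ps N q then Fk N w (q 0).toNat (q 1).toNat (q 2).toNat else 0

/-- the state sum -/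
noncomputable def Nw.Z (X : Nw c d) (N : ℕ) (w : Fin c → ℤ) : ℂ :=
  ∑' t : Fin d → ℤ, ∏ s, Fq N (w s) (X.q N t s)

/-- the corners at a complex point, with and without the shift by `q0 / N` -/
noncomputable def Nw.xN (X : Nw c d) (N : ℕ) (T : Fin d → ℂ) (s : Fin c) : Fin 3 → ℂ :=
  fun i => (1 - 1 / N) * X.q0 s i + ∑ j, T j * X.E j s i
noncomputable def Nw.x (X : Nw c d) (T : Fin d → ℂ) (s : Fin c) : Fin 3 → ℂ :=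
  fun i => X.q0 s i + ∑ j, T j * X.E j s i

/-- the box around the centre -/
def Nw.bx (X : Nw c d) (δ : ℝ) (N : ℕ) : Set (Fin d → ℝ) :=
  Set.univ.pi fun j => Set.Icc (lo N ⌈(N : ℝ) * (X.τ j - δ)⌉) (hi N ⌊(N : ℝ) * (X.τ j + δ)⌋)

/-- **the sum over a network as an integral** (abstract form).

Proof.  Write `V = ∑ v0`.  For a lattice point `t` let `q_s = X.q N t s`; by `ctr`, `crit`
`N ∑_s mR (q_s/N) = - ∑_s ∑_i ml q0` is a constant, and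
`∑_s sR (q_s/N) ≥ κ1 |t/N - τ|² - C/N` by `inj` (the linear map `t ↦ ∑ t_j E_j` is injective, so
`|∑ t_j E_j|² ≥ κ1' |t|²`).  Only the `t` with `Ps N q_s` for all `s` contribute; they satisfy
`|t| ≤ C N` (`inj`), so there are at most `(C N)^d` of them, and the sum is finite.  `zer` gives the
compatibility of `q_s` with the zeros of `qc`.
Far points, `|t_j/N - τ_j| > δ` for some `j`: `∏ ‖Z s q_s‖ ≤ C M^c exp (N (V - κ κ1 δ²))`.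
Near points (`δ ≤ δ0` so small that `|q_s i / N - qc i| ≤ r/4`): replace `Z s q_s` by
`F s (q_s/N)`, one factor after the other: `‖F s (q_s/N)‖ ≤ 2 M exp (N (v0 + mR))` (`Z s q_s = 0` if
not `Ps`), so the error is at most `C M^c exp (N (V - c1))`.  Then `S_MPX` for `f T = ∏ F s (X.xN N T s)` (`X.xN N (t/N) s =
q_s/N`; `LD` because `X.xN` is affine) with `a j = ⌈N (τ j - δ)⌉`, `b j = ⌊N (τ j + δ)⌋`, `U` the
preimage of the balls, and a fixed small `τ' = τ1`: `‖f‖ ≤ C M^c exp (N (V + c e - κ κ1 |Re T - τ|² +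
K2 |Im T|²))` (`Ad3` by `zer`), so `A ≤ C M^c exp (N (V + c e + K2 d τ'²))`,
`B ≤ C M^c exp (N (V + c e - κ κ1 (δ/2)² + K2 d τ'²))`; choose `K2 d τ'² ≤ π τ'` and
`K2 d τ'² ≤ κ κ1 (δ/2)²/2`. -/
def S_NW0 : Prop := S_GPX → S_MPX → ∀ (c d : ℕ) (X : Nw c d), X.Ok → ∀ r κ K c1 : ℝ, 0 < r →
  r ≤ 1 / 64 → (∀ s i, ctr (X.α s) i ≠ 0 → 32 * r ≤ ctr (X.α s) i ∧ 32 * r ≤ 1 / 2 - ctr (X.α s) i) →
  0 < κ → κ ≤ K → 0 < c1 → ∃ δ0 : ℝ, 0 < δ0 ∧ ∀ δ : ℝ, 0 < δ → δ ≤ δ0 →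
  ∃ τ1 c2 C' : ℝ, 0 < τ1 ∧ 0 < c2 ∧ ∃ p' N0 : ℕ, ∀ N : ℕ, N0 ≤ N →
  ∀ (Z : Fin c → (Fin 3 → ℤ) → ℂ) (F : Fin c → (Fin 3 → ℂ) → ℂ) (M e : ℝ), 1 ≤ M → 0 ≤ e →
  (∀ s q, ¬ Ps N q → Z s q = 0) →
  (∀ s q, Ps N q → (∀ i, qc (X.α s) i = 0 → q i = 0) → ‖Z s q‖ ≤ M * Real.exp (N *
    (v0 (X.α s) + mR (X.α s) (fun i => (q i : ℝ) / N) - κ * sR (X.α s) (fun i => (q i : ℝ) / N)))) →
  (∀ s, LD (F s) (Metric.ball (qC (X.α s)) (r / 2))) →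
  (∀ s, ∀ ξ ∈ Metric.ball (qC (X.α s)) (r / 2), Ad3 (X.α s) ξ → ‖F s ξ‖ ≤ M * Real.exp (N *
    (v0 (X.α s) + e + mR (X.α s) (re3 ξ) - κ * sR (X.α s) (re3 ξ) + K * ∑ i, (ξ i).im ^ 2))) →
  (∀ s q, (∀ i, qc (X.α s) i = 0 → q i = 0) → (∀ i, |(q i : ℝ) / N - qc (X.α s) i| ≤ r / 4) →
    ‖Z s q - F s (fun i => (q i : ℂ) / N)‖ ≤ M * Real.exp (N *
      (v0 (X.α s) + mR (X.α s) (fun i => (q i : ℝ) / N) - c1))) →
  ∀ η : Fin d → ℝ, (∀ j, |η j| ≤ τ1) →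
  ‖(∑' t : Fin d → ℤ, ∏ s, Z s (X.q N t s)) - N ^ d * ∫ x in X.bx δ N,
      ∏ s, F s (X.xN N (fun j => x j + η j * Complex.I) s)‖ ≤
    C' * N ^ p' * M ^ c * Real.exp (N * (∑ s, v0 (X.α s) + c * e - c2))

/-- the conclusion of `S_BN` -/
def BNc : Prop := ∀ (α : Fin 6 → ℝ) (r κ K C0 : ℝ), Fr α → Acu α → Blk α r κ K C0 → Lat α κ C0 →
  ∃ τ0 c1 : ℝ, 0 < τ0 ∧ 0 < c1 ∧ ∀ (w : ℤ) (y η : ℝ), 0 < y → y ≤ τ0 → |(w : ℝ)| * y ≤ τ0 →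
  |η| ≤ τ0 → ∃ C : ℝ, ∃ p N0 : ℕ, ∀ N : ℕ, N0 ≤ N →
  LD (FZ r N α w y η) (Metric.ball (qC α) (r / 2)) ∧
  (∀ ξ ∈ Metric.ball (qC α) (r / 2), Ad3 α ξ → ‖FZ r N α w y η ξ‖ ≤ C * N ^ p *
    Real.exp (N * (v0 α + (K * η ^ 2 + (Real.pi * w * y) ^ 2 / (16 * κ) + K * y ^ 2) +
      mR α (re3 ξ) - κ * sR α (re3 ξ) + K * ∑ i, (ξ i).im ^ 2))) ∧
  (∀ A b C' : ℕ, Cmp α A b C' → |(A : ℝ) / N - α 0| ≤ r / 4 →
    |(b : ℝ) / N - (α 1 + α 4)| ≤ r / 4 → |(C' : ℝ) / N - α 3| ≤ r / 4 →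
    ‖Fk N w A b C' - FZ r N α w y η ![(A : ℂ) / N, (b : ℂ) / N, (C' : ℂ) / N]‖ ≤
      C * N ^ p * Real.exp (eX N α A b C' - c1 * N)) ∧
  ∀ A b C' : ℕ, A + b + C' < N → Cmp α A b C' → ‖Fk N w A b C'‖ ≤ C * N ^ p *
    Real.exp (eX N α A b C' - κ * N * sR α ![(A : ℝ) / N, (b : ℝ) / N, (C' : ℝ) / N])

/-- **the state sum of a network as an integral.**

Proof.  `BNc` for all regions (the smallest `τ0`, `c1`; the largest `C`, `p`, `N0`, `M = C N^p`), and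
`S_NW0` with `Z s = Fq N (w s)`, `F s = FZ …`.  (`eX N α A b C = N (v0 α + mR α (q/N))`.  The near
points `q` have `q i ≥ 0`: if `qc i ≠ 0` then `qc i ≥ 32 r`, and they satisfy `Ps` because the sum
of the `qc i` is `1 - α 2 - α 5 ≤ 1 - 32 r`.) -/
def S_NW : Prop := S_NW0 → S_GPX → S_MPX → BNc → ∀ (c d : ℕ) (X : Nw c d), X.Ok →
  ∀ r κ K C0 : ℝ, (∀ s, Blk (X.α s) r κ K C0 ∧ Lat (X.α s) κ C0) →
  ∃ δ0 : ℝ, 0 < δ0 ∧ ∀ δ : ℝ, 0 < δ → δ ≤ δ0 → ∃ τ1 c2 : ℝ, 0 < τ1 ∧ 0 < c2 ∧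
  ∀ (w : Fin c → ℤ) (y ηJ : Fin c → ℝ) (η : Fin d → ℝ) (e : ℝ), 0 ≤ e →
  (∀ s, 0 < y s ∧ y s ≤ τ1 ∧ |(w s : ℝ)| * y s ≤ τ1 ∧ |ηJ s| ≤ τ1 ∧
      K * ηJ s ^ 2 + (Real.pi * w s * y s) ^ 2 / (16 * κ) + K * y s ^ 2 ≤ e) → (∀ j, |η j| ≤ τ1) →
  ∃ C : ℝ, ∃ p N0 : ℕ, ∀ N : ℕ, N0 ≤ N →
  ‖X.Z N w - N ^ d * ∫ x in X.bx δ N, ∏ s, FZ r N (X.α s) (w s) (y s) (ηJ s)
      (X.xN N (fun j => x j + η j * Complex.I) s)‖ ≤
    C * N ^ p * Real.exp (N * (∑ s, v0 (X.α s) + c * e - c2))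

/-! ### the saddle point -/

/-- the variables of the regions -/
noncomputable def Nw.v (X : Nw c d) (T : Fin d → ℂ) (J : Fin c → ℂ) (s : Fin c) : Fin 4 → ℂ :=
  ![X.x T s 0, X.x T s 1, X.x T s 2, J s]

/-- directions -/
noncomputable def Nw.dv (X : Nw c d) (T : Fin d → ℂ) (J : Fin c → ℂ) (s : Fin c) : Fin 4 → ℂ :=
  ![∑ j, T j * X.E j s 0, ∑ j, T j * X.E j s 1, ∑ j, T j * X.E j s 2, J s]

/-- the potential -/
noncomputable def Nw.Ph (X : Nw c d) (w : Fin c → ℤ) (T : Fin d → ℂ) (J ζ : Fin c → ℂ) : ℂ :=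
  ∑ s, (PE (X.α s) (X.v T J s) (ζ s) + Complex.I * Real.pi * w s * ζ s ^ 2 / 4 +
    Complex.I * Real.pi * ζ s)

/-- its derivative in the direction `(T', J', ζ')` -/
noncomputable def Nw.GP (X : Nw c d) (w : Fin c → ℤ) (T : Fin d → ℂ) (J ζ : Fin c → ℂ)
    (T' : Fin d → ℂ) (J' ζ' : Fin c → ℂ) : ℂ :=
  ∑ s, (PG (X.α s) (X.v T J s) (ζ s) (X.dv T' J' s) (ζ' s) +
    (Complex.I * Real.pi * w s * ζ s / 2 + Complex.I * Real.pi) * ζ' s)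

/-- its second derivative -/
noncomputable def Nw.HP (X : Nw c d) (w : Fin c → ℤ) (T : Fin d → ℂ) (J ζ : Fin c → ℂ)
    (T' : Fin d → ℂ) (J' ζ' : Fin c → ℂ) (T'' : Fin d → ℂ) (J'' ζ'' : Fin c → ℂ) : ℂ :=
  ∑ s, (PH (X.α s) (X.v T J s) (ζ s) (X.dv T' J' s) (ζ' s) (X.dv T'' J'' s) (ζ'' s) +
    Complex.I * Real.pi * w s / 2 * ζ' s * ζ'' s)

/-- regions without summation index -/
def Nw.AJ (X : Nw c d) (J : Fin c → ℂ) : Prop := ∀ s, X.α s 1 = 0 → J s = 0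

/-- a critical point -/
structure Nw.Cr (X : Nw c d) (w : Fin c → ℤ) (T : Fin d → ℂ) (J ζ : Fin c → ℂ) : Prop where
  aj : X.AJ J
  eq : ∀ (T' : Fin d → ℂ) (J' ζ' : Fin c → ℂ), X.AJ J' → X.GP w T J ζ T' J' ζ' = 0

/-- the polydisc around the centre -/
def Nw.Nr (X : Nw c d) (ρ : ℝ) (T : Fin d → ℂ) (J ζ : Fin c → ℂ) : Prop :=
  (∀ j, ‖T j - X.τ j‖ < ρ) ∧ (∀ s, ‖J s - X.α s 1‖ < ρ) ∧ ∀ s, ‖ζ s‖ < ρ

/-- **the saddle point exists and is unique if the twist regions are long.**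

Proof.  Let `x = (T, J)` (with `J s = 0` where `α s 1 = 0`) and `Ψ(x, ζ) = ∑ PE`.  At the centre
`x*` and `ζ = 0` the first derivative of `Ψ` vanishes (`Blk.cen`, `crit`), `Ψ = ∑ v0`; the second
derivative in `x` is a real (the values of `ct` are real) negative definite form by `Blk.hes` and
`inj`.  Consider the system `∂_x Ψ (x, ζ) = 0`, `ζ_s + 2 ε_s (1 + ∂_{ζ_s} Ψ / (π i)) = 0` with
parameters `ε ∈ ℂ^c`; `ε_s = 1 / w_s`.  At `ε = 0` it has the solution `(x*, 0)`, where its derivative in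
`(x, ζ)` is invertible (block triangular).  By the implicit function theorem (or Banach's fixed
point theorem in the norm `max(|x|, Λ|ζ|)`) there are `ρ`, `W0` such that for `|ε_s| ≤ 1/W0` there
is a unique solution with `|x - x*|, |ζ| < ρ`, and it satisfies `|x - x*| + |ζ| ≤ C max |ε_s|`, and
`‖ζ_s‖ ≤ 3 / |w_s|`.  Since `∂_{J_s} Ψ = 0`, `S_ZZ` gives `∂_{ζ_s} Ψ = - K_s ζ_s (1 + o(1))`, `K_s > 0`,
so `ζ_s = -2 / (w_s + i κ_s)`, `κ_s = 2 K_s (1 + o(1)) / π`, and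
`Im ζ_s = 2 Re κ_s / |w_s + i κ_s|²` is positive and `≤ C / w_s²`.
The value: `Ψ = ∑ v0 + O(|x - x*|² + |ζ|²)` (Taylor, `Blk.bdd`), and with
`k_s = π i w_s ζ_s/2 + π i = - ∂_{ζ_s} Ψ = O(ζ_s)` one has
`π i w_s ζ_s²/4 + π i ζ_s = ζ_s k_s/2 + π i ζ_s/2`, whose real part is `O(1/w_s²)`. -/
def S_SDN : Prop := S_LC → S_LTd → S_ZZ → ∀ (c d : ℕ) (X : Nw c d), X.Ok → ∀ r κ K C0 : ℝ,
  (∀ s, Blk (X.α s) r κ K C0) → ∃ ρ0 : ℝ, 0 < ρ0 ∧ ∀ ρ : ℝ, 0 < ρ → ρ ≤ ρ0 → ∃ W0 C : ℝ, 1 ≤ W0 ∧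
  ∀ (w : Fin c → ℤ) (Wm : ℝ), W0 ≤ Wm → (∀ s, Wm ≤ |(w s : ℝ)|) →
  ∃ (T : Fin d → ℂ) (J ζ : Fin c → ℂ), X.Cr w T J ζ ∧ X.Nr ρ T J ζ ∧
    (∀ j, ‖T j - X.τ j‖ ≤ C / Wm) ∧ (∀ s, ‖J s - X.α s 1‖ ≤ C / Wm) ∧
    (∀ s, ‖ζ s‖ ≤ 3 / |(w s : ℝ)| ∧ 0 < (ζ s).im ∧ (ζ s).im ≤ C / (w s : ℝ) ^ 2) ∧
    |(X.Ph w T J ζ).re - ∑ s, v0 (X.α s)| ≤ C / Wm ^ 2 ∧
    ∀ (T' : Fin d → ℂ) (J' ζ' : Fin c → ℂ), X.Cr w T' J' ζ' → X.Nr ρ T' J' ζ' →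
      T' = T ∧ J' = J ∧ ζ' = ζ

/-- the region where `Blk` applies -/
def Nw.Rg (X : Nw c d) (r : ℝ) (T : Fin d → ℂ) (J ζ : Fin c → ℂ) : Prop :=
  ∀ s, X.v T J s ∈ Metric.ball (vC (X.α s)) r ∧ ‖ζ s‖ < r

/-- **the maximum at the saddle point.**

Proof.  The region `Rg` is convex (`X.v` is affine).  `t ↦ Re Ph` along the segment has the first
derivative `0` at `t = 0` (`Cr`, `Blk.der`) and the second derivative
`≤ - 2 κ ∑_s (|dv|² + g_s²)` by `Blk.hes` (the terms `π i w_s g_s²/2` are imaginary; `Adm` by `zer`),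
and `∑_s |dv|² ≥ κ1 (∑ a² + ∑ b²)` by `inj`. -/
def S_MXN : Prop := ∀ (c d : ℕ) (X : Nw c d), X.Ok → ∀ r κ K C0 : ℝ, (∀ s, Blk (X.α s) r κ K C0) →
  ∃ κ' : ℝ, 0 < κ' ∧
  ∀ (w : Fin c → ℤ) (T : Fin d → ℂ) (J ζ : Fin c → ℂ), X.Cr w T J ζ → X.Rg r T J ζ →
  ∀ (a : Fin d → ℝ) (b g : Fin c → ℝ), (∀ s, X.α s 1 = 0 → b s = 0) →
  X.Rg r (fun j => T j + a j) (fun s => J s + b s) (fun s => ζ s + g s) →
  (X.Ph w (fun j => T j + a j) (fun s => J s + b s) (fun s => ζ s + g s)).re ≤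
    (X.Ph w T J ζ).re - κ' * (∑ j, a j ^ 2 + ∑ s, b s ^ 2 + ∑ s, g s ^ 2)

/-! ### the integral over all variables -/

/-- the variables: lattice, summation indices, `ζ` -/
abbrev Nw.Ix (X : Nw c d) : Type := Fin d ⊕ {s : Fin c // X.α s 1 ≠ 0} ⊕ Fin c

/-- the summation indices as a function on all regions -/
noncomputable def Nw.Jf (X : Nw c d) (u : X.Ix → ℝ) (η : Fin c → ℝ) (s : Fin c) : ℂ :=
  if h : X.α s 1 ≠ 0 then (u (.inr (.inl ⟨s, h⟩)) : ℂ) + η s * Complex.I else 0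

/-- the integrand -/
noncomputable def Nw.Pg (X : Nw c d) (N : ℕ) (w : Fin c → ℤ) (T : Fin d → ℂ) (J ζ : Fin c → ℂ) : ℂ :=
  ∏ s, (-(N / (Real.pi * Complex.I)) * (ez N (w s) (N * ζ s) * Complex.sin (Real.pi * ζ s) *
    kz N (N * ζ s)) * (if X.α s 1 = 0 then 1 else (N : ℂ)) *
      PB N (X.α s) ![X.xN N T s 0, X.xN N T s 1, X.xN N T s 2, J s] (ζ s))

/-- the box -/
def Nw.Bx (X : Nw c d) (r δ : ℝ) (N : ℕ) : Set (X.Ix → ℝ) :=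
  {u | (fun j => u (.inl j)) ∈ X.bx δ N ∧
    (∀ s : {s : Fin c // X.α s 1 ≠ 0}, u (.inr (.inl s)) ∈
      Set.Icc (lo N ⌈(N : ℝ) * (X.α s 1 - r / 4)⌉) (hi N ⌊(N : ℝ) * (X.α s 1 + r / 4)⌋)) ∧
    ∀ s, u (.inr (.inr s)) ∈ Set.Icc (-th r N) (th r N)}

/-- **all integrals together.**

Proof.  `FZ` is `QZ` of `VB`; a product of integrals over different variables is the integral of the
product (`MeasureTheory.integral_fintype_prod_eq_prod` or `integral_prod_mul` by induction), first for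
the `ζ_s`, then for the summation indices of the regions with `α s 1 ≠ 0`; Fubini for continuous
functions on compact boxes; `volume_preserving_sumPiEquivProdPi` or similar for the decomposition of
`X.Ix → ℝ`.  The integrand is continuous (`Blk.diff`; on the box the points are in the balls:
`δ` small enough for `hδ`, `|Im| < r/8`, `N ≥ N0`; `kz` is continuous on `Im > 0`). -/
def S_BXN : Prop := ∀ (c d : ℕ) (X : Nw c d), X.Ok → ∀ r κ K C0 : ℝ,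
  (∀ s, Blk (X.α s) r κ K C0) → ∀ δ : ℝ, 0 < δ →
  (∀ s, ∀ T : Fin d → ℂ, (∀ j, ‖T j - X.τ j‖ ≤ 2 * δ) → X.x T s ∈ Metric.ball (qC (X.α s)) (r / 4)) →
  ∃ N0 : ℕ, ∃ τ2 : ℝ, 0 < τ2 ∧ ∀ (w : Fin c → ℤ) (y ηJ : Fin c → ℝ) (η : Fin d → ℝ),
  (∀ s, 0 < y s ∧ y s ≤ τ2 ∧ |ηJ s| ≤ τ2) → (∀ j, |η j| ≤ τ2) → ∀ N : ℕ, N0 ≤ N →
  ∫ x in X.bx δ N, ∏ s, FZ r N (X.α s) (w s) (y s) (ηJ s)
      (X.xN N (fun j => x j + η j * Complex.I) s) =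
    ∫ u in X.Bx r δ N, X.Pg N w (fun j => u (.inl j) + η j * Complex.I) (X.Jf u ηJ)
      (fun s => u (.inr (.inr s)) + y s * Complex.I)

/-- the number of the brackets and of the variables -/
noncomputable def Nw.nA (X : Nw c d) : ℕ := ∑ s, na (X.α s)

/-- **asymptotics of the integral.**

Proof.  As `S_IQA` (`Q251/KN/IQA.lean`).  Substitute the translation by the real parts of the critical
point (interior of the box) and apply `S_LAP` to the normalized integrand on the box, extended by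
`0`.  `kz N (Nζ) = -π² (-1)^(N-1) e^{πiNζ} / (1 - e^{πi(Nζ-N+1)})²` and the denominator tends to `1`
uniformly (`Im ζ = y > 0` is fixed); `ez N w (Nζ) = e^{N πi w ζ²/4}`;
`PB N α v ζ = e^{N PE α v ζ} / (√N^na PA α v) (1 + O(1/N))` (`Blk.asy`; `Adm` holds by `zer`) at
`v = X.v T J s - (q0, 0)/N`, and `N (PE (v - q0/N) - PE v) = - PG α v ζ (q0, 0) 0 + O(1/N)` uniformly
(Taylor, `Blk.bdd`), bounded.  So `N^d Pg` is `(-1)^(c (N-1)) N^d N^(c + nJ) √N^(-nA) e^{N Ph}` times a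
bounded function converging to a nonzero constant at the critical point (`nJ` is the number of the
regions with `α s 1 ≠ 0`; `card X.Ix = d + nJ + c`).  `S_MXN` gives the Gaussian bound; the limit of
`e^{N (Ph (crit + u/√N) - Ph (crit))}` is `e^{HP(u, u)/2}` (first derivatives vanish); the Gaussian
integral does not vanish by `S_GIM` (`Re HP/2 ≤ - κ' |u|²` from `Blk.hes` and `inj`). -/
def S_LPN : Prop := S_LC → S_LAP → S_GIM → S_MXN → S_BXN → ∀ (c d : ℕ) (X : Nw c d), X.Ok →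
  ∀ r κ K C0 : ℝ, (∀ s, Blk (X.α s) r κ K C0) → ∃ δ0 : ℝ, 0 < δ0 ∧ ∀ δ : ℝ, 0 < δ → δ ≤ δ0 →
  ∃ ρ : ℝ, 0 < ρ ∧ ∀ (w : Fin c → ℤ) (T : Fin d → ℂ) (J ζ : Fin c → ℂ), X.Cr w T J ζ →
  X.Nr ρ T J ζ → (∀ s, 0 < (ζ s).im) → ∃ z : ℂ, z ≠ 0 ∧
  Tendsto (fun N : ℕ => ((√N : ℝ) : ℂ) ^ X.nA / ((√N : ℝ) : ℂ) ^ Fintype.card X.Ix *
    (-1) ^ (c * (N - 1)) * Complex.exp (-(N * X.Ph w T J ζ)) * (N ^ d *
    ∫ x in X.bx δ N, ∏ s, FZ r N (X.α s) (w s) (ζ s).im (J s).im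
      (X.xN N (fun j => x j + (T j).im * Complex.I) s))) atTop (𝓝 z)

/-- **asymptotics of the state sum of a highly twisted network.**

Proof.  Choose common `r, κ, K, C0` (`Blk`, `Lat`, monotonicity), `δ` below the `δ0` of `S_NW` and of
`S_LPN`, `τ1, c2` from `S_NW`, `ρ` from `S_LPN`, the given bound and `S_SDN`, and `W0` so large
that all imaginary parts and `|w| Im ζ` are at most `τ1`, and `c e + C / W0² < c2 / 2`, where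
`e = C'/W0²` bounds the losses `K (Im J)² + (π w Im ζ)²/(16κ) + K (Im ζ)²` (`|Im ζ| ≤ C/w²`,
`|Im J| ≤ C/W0`).  Then the integral in `S_LPN` (which has the size `e^{N Re Ph}` up to powers of
`N`, `Re Ph ≥ V - C/W0²`) dominates the error `C N^p e^{N (V + c e - c2)}` in `S_NW`. -/
def S_ASN : Prop := S_LC → S_GAM → S_BMO → (∀ α : Fin 6 → ℝ, Fr α → ∃ r κ K C0 : ℝ, Blk α r κ K C0) →
  (∀ α : Fin 6 → ℝ, Fr α → Acu α → ∃ κ C0 : ℝ, 0 < κ ∧ Lat α κ C0) →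
  S_ZZ → S_NW0 → S_GPX → S_MPX → BNc → S_NW → S_SDN → S_LAP → S_GIM → S_MXN → S_BXN → S_LPN →
  S_LTd → ∀ (c d : ℕ) (X : Nw c d), X.Ok → ∃ ρ0 : ℝ, 0 < ρ0 ∧ ∀ ρ : ℝ, 0 < ρ → ρ ≤ ρ0 →
  ∃ W0 C : ℝ, 1 ≤ W0 ∧ ∀ (w : Fin c → ℤ) (Wm : ℝ), W0 ≤ Wm → (∀ s, Wm ≤ |(w s : ℝ)|) →
  ∃ (T : Fin d → ℂ) (J ζ : Fin c → ℂ), X.Cr w T J ζ ∧ X.Nr ρ T J ζ ∧ (∀ s, 0 < (ζ s).im) ∧
    |(X.Ph w T J ζ).re - ∑ s, v0 (X.α s)| ≤ C / Wm ^ 2 ∧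
    (∀ (T' : Fin d → ℂ) (J' ζ' : Fin c → ℂ), X.Cr w T' J' ζ' → X.Nr ρ T' J' ζ' →
      T' = T ∧ J' = J ∧ ζ' = ζ) ∧
    ∃ z : ℂ, z ≠ 0 ∧ Tendsto (fun N : ℕ => ((√N : ℝ) : ℂ) ^ X.nA /
      ((√N : ℝ) : ℂ) ^ Fintype.card X.Ix * (-1) ^ (c * (N - 1)) *
      Complex.exp (-(N * X.Ph w T J ζ)) * X.Z N w) atTop (𝓝 z)

end Pool.Agent.Q99.HT
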