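import Pool.Agent.Q99.HT.Asm1
import Pool.Agent.Q208.HT.BB
import Pool.Agent.Q208.HT.TW
import Pool.Agent.Q24.HT.LTd
import Pool.Agent.Q24.HT.TBI
import Pool.Agent.Q195.HT.BN
import Pool.Agent.Q195.HT.SJ
import Pool.Agent.Q299.HT.NW0
import Pool.Agent.Q299.HT.SDN
import Pool.Agent.Q239.HT.LPN
import Pool.Agent.Q206.HT.NE
import Pool.Agent.Q206.HT.NO
import Pool.Agent.Q206.HT.VF
import Pool.Agent.Q261.HT.NR
import Pool.Agent.Q261.HT.NZ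
import Pool.Agent.Q166.HT.NT

/-!
# The volume conjecture for highly twisted links on planar shadows with a packing without obtuse angles
-/

set_option autoImplicit false

namespace Pool.Agent.Q99.HT

open Finset Filter Topology MeasureTheory
open Pool.Agent.Q99.FAL (Pc Val Pri)

theorem vcH (D : List Pc) (h1 : Val D 1) (h2 : Pri D 1) (h3 : D ≠ [])
    (a : Fin D.length → Fin 6 → ℝ) (ha : Mx D a) (hq : ∀ k, a k 0 ≤ 1 / 4 ∧ a k 3 ≤ 1 / 4) :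
    ∃ ρ0 : ℝ, 0 < ρ0 ∧ ∀ ρ : ℝ, 0 < ρ → ρ ≤ ρ0 → ∃ W0 C : ℝ, 1 ≤ W0 ∧
    ∀ (f : Fin D.length → Bool × ℕ) (Wm : ℝ), W0 ≤ Wm → (∀ k, Wm ≤ (f k).2) →
    ∃ x : Fin D.length → Fin 6 → ℂ, CrI D (wf f) x ∧ (∀ s i, ‖x s i - a s i‖ < ρ) ∧
      (∀ x', CrI D (wf f) x' → (∀ s i, ‖x' s i - a s i‖ < ρ) → x' = x) ∧
      (∀ s, 0 < (Pool.Agent.Q99.FAL.n1 (x s) - Pool.Agent.Q99.FAL.n2 (x s)).im) ∧
      |VI x - 2 * Real.pi * Pool.Agent.Q99.FAL.fV a| ≤ C / Wm ^ 2 ∧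
      ∃ z : ℝ, 0 < z ∧ Tendsto (fun N : ℕ => ‖kas N D f‖ /
        (N * √N * Real.exp (N * (VI x / (2 * Real.pi))))) atTop (𝓝 z) :=
  t_all Pool.Agent.Q24.HT.task_LTd Pool.Agent.Q24.HT.task_TBI Pool.Agent.Q208.HT.task_TW
    Pool.Agent.Q208.HT.task_BB Pool.Agent.Q195.HT.task_SJ Pool.Agent.Q195.HT.task_BN
    Pool.Agent.Q299.HT.task_NW0 Pool.Agent.Q299.HT.task_SDN Pool.Agent.Q239.HT.task_LPN
    Pool.Agent.Q206.HT.task_NE Pool.Agent.Q206.HT.task_NO Pool.Agent.Q261.HT.task_NR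
    Pool.Agent.Q261.HT.task_NZ Pool.Agent.Q166.HT.task_NT Pool.Agent.Q206.HT.task_VF
    D h1 h2 h3 a ha hq

end Pool.Agent.Q99.HT
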