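import Pool.Agent.Q99.HT.Fin
import Pool.Agent.Q162.KN.PZ
import Pool.Agent.Q208.KN.CU
import Pool.Agent.Q208.KN.HI
import Pool.Agent.Q208.KN.SY
import Pool.Agent.Q208.KN.LC
import Pool.Agent.Q210.KN.K1
import Pool.Agent.Q210.KN.K3
import Pool.Agent.Q210.KN.WR
import Pool.Agent.Q239.KN.GG
import Pool.Agent.Q239.KN.JG
import Pool.Agent.Q239.KN.TO
import Pool.Agent.Q239.KN.LAP
import Pool.Agent.Q239.KN.BW
import Pool.Agent.Q261.KN.K2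
import Pool.Agent.Q261.KN.MP
import Pool.Agent.Q261.KN.PJ
import Pool.Agent.Q280.KN.GAM
import Pool.Agent.Q297.KN.B1F
import Pool.Agent.Q297.KN.F2
import Pool.Agent.Q297.KN.PF
import Pool.Agent.Q299.KN.GIM
import Pool.Agent.Q299.KN.TG2
import Pool.Agent.Q299.KN.ZG
import Pool.Agent.Q261.FAL.EU
import Pool.Agent.Q151.FAL.T12
import Pool.Agent.Q208.HT.EV
import Pool.Agent.Q208.HT.D1
import Pool.Agent.Q166.HT.TG
import Pool.Agent.Q166.HT.NDi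
import Pool.Agent.Q176.HT.BLK
import Pool.Agent.Q176.HT.Lin
import Pool.Agent.Q176.HT.ZZ
import Pool.Agent.Q237.HT.GPX
import Pool.Agent.Q237.HT.INT
import Pool.Agent.Q237.HT.PZ2
import Pool.Agent.Q237.HT.MPX
import Pool.Agent.Q239.HT.ASN
import Pool.Agent.Q239.HT.MXN
import Pool.Agent.Q251.HT.BRK
import Pool.Agent.Q251.HT.NW
import Pool.Agent.Q251.HT.SGD
import Pool.Agent.Q287.HT.LTH
import Pool.Agent.Q287.HT.TBA
import Pool.Agent.Q299.HT.BXN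

/-!
# Highly twisted links on arbitrary planar shadows: assembly of the tools
-/

set_option autoImplicit false

namespace Pool.Agent.Q99.HT

open Finset Filter Topology MeasureTheory
open Pool.Agent.Q99.FAL (S_T1 Pc Val Pri S_EU)
open Pool.Agent.Q99.KN (S_LC S_GAM S_PF S_WR S_F2 F2 S_TO S_JG S_GG TGall S_ZG S_CU S_K1 S_B1 S_K2
  S_HI S_MP S_PJ S_K3)

theorem t_EU : S_EU := Pool.Agent.Q261.FAL.task_EU
theorem t_PF : S_PF := Pool.Agent.Q297.KN.pf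
theorem t_WR : S_WR := Pool.Agent.Q210.KN.task_WR
theorem t_LC : S_LC := Pool.Agent.Q208.KN.task_LC
theorem t_GAM : S_GAM := Pool.Agent.Q280.KN.task_GAM
theorem t_T1 : S_T1 := Pool.Agent.Q99.FAL.task_T1

theorem t_F2 : F2 := Pool.Agent.Q297.KN.f2 t_EU t_PF t_WR Pool.Agent.Q208.KN.task_CU
  Pool.Agent.Q210.KN.task_K1 Pool.Agent.Q297.KN.b1 Pool.Agent.Q261.KN.task_K2
  Pool.Agent.Q208.KN.task_HI Pool.Agent.Q261.KN.task_MP Pool.Agent.Q261.KN.task_PJ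
  Pool.Agent.Q210.KN.task_K3

theorem t_SG : SGc := Pool.Agent.Q251.HT.task_SGD t_F2 Pool.Agent.Q239.KN.task_TO
  Pool.Agent.Q239.KN.task_JG Pool.Agent.Q239.KN.task_GG Pool.Agent.Q299.KN.task_TGall
  Pool.Agent.Q299.KN.task_ZG

theorem t_Brk (hL : S_LTd) (hI : S_TBI) : ∀ x : ℝ, 0 < x → x < 1 / 2 →
    ∃ ρ κ K C0 : ℝ, Brk x ρ κ K C0 :=
  Pool.Agent.Q251.HT.task_BRK t_LC t_GAM hL hI Pool.Agent.Q287.HT.task_TBA
    Pool.Agent.Q287.HT.task_LTH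

theorem t_Blk (hL : S_LTd) (hI : S_TBI) : ∀ α : Fin 6 → ℝ, Fr α →
    ∃ r κ K C0 : ℝ, Blk α r κ K C0 :=
  Pool.Agent.Q176.HT.task_BLK t_LC hL (t_Brk hL hI)

theorem t_Lat (hW : S_TW) (hB : S_BB) : ∀ α : Fin 6 → ℝ, Fr α → Acu α →
    ∃ κ C0 : ℝ, 0 < κ ∧ Lat α κ C0 := by
  intro α h1 h2
  obtain ⟨C1, κ1, hκ1, hT⟩ := hW Pool.Agent.Q208.HT.task_D1 Pool.Agent.Q166.HT.task_TG t_T1 α h1 h2
  obtain ⟨C2, κ2, hκ2, hS⟩ := hB Pool.Agent.Q208.HT.task_EV t_PF t_WR Pool.Agent.Q208.HT.task_D1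
    Pool.Agent.Q166.HT.task_TG Pool.Agent.Q166.HT.task_TG5 hW t_T1 α h1 h2
  have key : ∀ (κ κ' C C' N X e D : ℝ), 0 < κ' → κ' ≤ κ → C ≤ C' → 0 ≤ X → 0 ≤ N → 0 ≤ D →
      C * X * Real.exp (e - κ * D / N) ≤ max C' 0 * X * Real.exp (e - κ' * D / N) := by
    intro κ κ' C C' N X e D h3 h4 h5 h6 h7 h8
    have e1 : κ' * D / N ≤ κ * D / N := by
      apply div_le_div_of_nonneg_right _ h7
      exact mul_le_mul_of_nonneg_right h4 h8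
    have e2 : Real.exp (e - κ * D / N) ≤ Real.exp (e - κ' * D / N) :=
      Real.exp_le_exp.2 (by linarith)
    have e3 : C * X ≤ max C' 0 * X :=
      mul_le_mul_of_nonneg_right (le_trans h5 (le_max_left _ _)) h6
    have e4 : 0 ≤ max C' 0 * X := mul_nonneg (le_max_right _ _) h6
    calc C * X * Real.exp (e - κ * D / N) ≤ max C' 0 * X * Real.exp (e - κ * D / N) :=
          mul_le_mul_of_nonneg_right e3 (Real.exp_pos _).le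
      _ ≤ _ := mul_le_mul_of_nonneg_left e2 e4
  refine ⟨min κ1 κ2, max (max C1 C2) 0, lt_min hκ1 hκ2, ⟨?_, ?_, ?_⟩⟩
  · intro N A b C j k g1 g2 g3 g4 g5 g6 g7 g8
    refine le_trans (hT N A b C j k g1 g2 g3 g4 g5 g6 g7 g8) ?_
    exact key _ _ _ _ N _ _ _ (lt_min hκ1 hκ2) (min_le_left _ _) (le_max_left _ _) (by positivity)
      (by positivity) (by unfold dX; positivity)
  · intro N A b C k g1 g2 g3
    refine le_trans (hS N A b C k g1 g2 g3) ?_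
    exact key _ _ _ _ N _ _ _ (lt_min hκ1 hκ2) (min_le_right _ _) (le_max_right _ _) (by positivity)
      (by positivity) (by unfold dX; positivity)
  · intro N A b C g1 z
    exact (Pool.Agent.Q208.HT.task_EV t_PF t_WR N (by omega) z A b C g1).1

theorem t_BN (hJ : S_SJ) (hB : S_BN) : BNc :=
  hB Pool.Agent.Q237.HT.task_GPX Q162.KN.task_PZ Pool.Agent.Q237.HT.task_PZ2
    Pool.Agent.Q237.HT.task_INT hJ

theorem t_AS (hL : S_LTd) (hI : S_TBI) (hW : S_TW) (hB : S_BB) (hJ : S_SJ) (hN : S_BN)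
    (hN0 : S_NW0) (hS : S_SDN) (hP : S_LPN) : ASc :=
  Pool.Agent.Q239.HT.task_ASN t_LC t_GAM Pool.Agent.Q176.HT.task_BMO (t_Blk hL hI) (t_Lat hW hB)
    Pool.Agent.Q176.HT.task_ZZ hN0 Pool.Agent.Q237.HT.task_GPX Pool.Agent.Q237.HT.task_MPX
    (t_BN hJ hN) Pool.Agent.Q251.HT.task_NW hS Pool.Agent.Q239.KN.task_LAP
    Q299.KN.Gim.task_GIM Pool.Agent.Q239.HT.task_MXN Pool.Agent.Q299.HT.task_BXN hP hL

theorem t_all (hL : S_LTd) (hI : S_TBI) (hW : S_TW) (hB : S_BB) (hJ : S_SJ) (hN : S_BN)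
    (hN0 : S_NW0) (hS : S_SDN) (hP : S_LPN) (hE : S_NE) (hO : S_NO) (hR : S_NR) (hZ : S_NZ)
    (hT : S_NT) (hV : S_VF) (D : List Pc) (h1 : Val D 1) (h2 : Pri D 1) (h3 : D ≠ [])
    (a : Fin D.length → Fin 6 → ℝ) (ha : Mx D a) (hq : ∀ k, a k 0 ≤ 1 / 4 ∧ a k 3 ≤ 1 / 4) :
    ∃ ρ0 : ℝ, 0 < ρ0 ∧ ∀ ρ : ℝ, 0 < ρ → ρ ≤ ρ0 → ∃ W0 C : ℝ, 1 ≤ W0 ∧
    ∀ (f : Fin D.length → Bool × ℕ) (Wm : ℝ), W0 ≤ Wm → (∀ k, Wm ≤ (f k).2) →
    ∃ x : Fin D.length → Fin 6 → ℂ, CrI D (wf f) x ∧ (∀ s i, ‖x s i - a s i‖ < ρ) ∧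
      (∀ x', CrI D (wf f) x' → (∀ s i, ‖x' s i - a s i‖ < ρ) → x' = x) ∧
      (∀ s, 0 < (Pool.Agent.Q99.FAL.n1 (x s) - Pool.Agent.Q99.FAL.n2 (x s)).im) ∧
      |VI x - 2 * Real.pi * Pool.Agent.Q99.FAL.fV a| ≤ C / Wm ^ 2 ∧
      ∃ z : ℝ, 0 < z ∧ Tendsto (fun N : ℕ => ‖kas N D f‖ /
        (N * √N * Real.exp (N * (VI x / (2 * Real.pi))))) atTop (𝓝 z) :=
  fin_ht (t_AS hL hI hW hB hJ hN hN0 hS hP) t_SG hE hO hR (hZ t_PF t_WR Pool.Agent.Q208.KN.task_SY)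
    (hT t_LC) Pool.Agent.Q166.HT.task_NDi (hV t_LC Pool.Agent.Q239.KN.task_BW) D h1 h2 h3 a ha hq

end Pool.Agent.Q99.HT
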