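import Pool.Agent.Q99.HT.Stm5

/-!
# Highly twisted links on arbitrary planar shadows: the final step
-/

set_option autoImplicit false

namespace Pool.Agent.Q99.HT

open Finset Filter Topology MeasureTheory
open Pool.Agent.W715.VC (rt)
open Pool.Agent.W709.QAT (Piece run)
open Pool.Agent.Q191.LB (sg)
open Pool.Agent.Q99.FAL (Pc Ty Val Pri Pos AS Sol Out c6 fV n1 n2 cor dn)

/-- the conclusion of `S_ASN` -/
def ASc : Prop := ∀ (c d : ℕ) (X : Nw c d), X.Ok → ∃ ρ0 : ℝ, 0 < ρ0 ∧ ∀ ρ : ℝ, 0 < ρ → ρ ≤ ρ0 →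
  ∃ W0 C : ℝ, 1 ≤ W0 ∧ ∀ (w : Fin c → ℤ) (Wm : ℝ), W0 ≤ Wm → (∀ s, Wm ≤ |(w s : ℝ)|) →
  ∃ (T : Fin d → ℂ) (J ζ : Fin c → ℂ), X.Cr w T J ζ ∧ X.Nr ρ T J ζ ∧ (∀ s, 0 < (ζ s).im) ∧
    |(X.Ph w T J ζ).re - ∑ s, v0 (X.α s)| ≤ C / Wm ^ 2 ∧
    (∀ (T' : Fin d → ℂ) (J' ζ' : Fin c → ℂ), X.Cr w T' J' ζ' → X.Nr ρ T' J' ζ' →
      T' = T ∧ J' = J ∧ ζ' = ζ) ∧
    ∃ z : ℂ, z ≠ 0 ∧ Tendsto (fun N : ℕ => ((√N : ℝ) : ℂ) ^ X.nA /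
      ((√N : ℝ) : ℂ) ^ Fintype.card X.Ix * (-1) ^ (c * (N - 1)) *
      Complex.exp (-(N * X.Ph w T J ζ)) * X.Z N w) atTop (𝓝 z)

/-- the Kashaev invariant -/
noncomputable def kas (N : ℕ) (D : List Pc) (f : Fin D.length → Bool × ℕ) : ℂ :=
  if h : 0 < N then run N (rt N) (lnk D f) (fun l => if l = [⟨0, h⟩] then 1 else 0) [⟨0, h⟩] else 0

/-- the conclusion of `S_SGD` -/
def SGc : Prop := ∀ N : ℕ, ∀ h : 0 < N, ∀ (D : List Pc) (f : Fin D.length → Bool × ℕ), Val D 1 →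
  ∃ θ : ℂ, ‖θ‖ = 1 ∧ run N (rt N) (lnk D f) (fun l => if l = [⟨0, h⟩] then 1 else 0) [⟨0, h⟩] =
    θ * (N / Real.pi) ^ D.length * ZD N D (wf f)

/-- the conclusion of `S_NZ` -/
def NZc : Prop := ∀ D : List Pc, Val D 1 → Pri D 1 → D ≠ [] →
  ∀ a : Fin D.length → Fin 6 → ℝ, Mx D a → ∀ (d : ℕ) (β : Fin D.length → Bool)
  (Y : Nw D.length d), NetOf D a β Y → ∀ N : ℕ, 0 < N → ∀ w : Fin D.length → ℤ,
  ZD N D w = Y.Z N w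

/-- the conclusion of `S_NT` -/
def NTc : Prop := ∀ D : List Pc, Val D 1 → Pri D 1 → D ≠ [] →
  ∀ a : Fin D.length → Fin 6 → ℝ, Mx D a → ∀ (d : ℕ) (β : Fin D.length → Bool)
  (Y : Nw D.length d), NetOf D a β Y → Y.Ok →
  (∀ x : Fin D.length → Fin 6 → ℂ, So D x 1 ↔ ∃ (T : Fin d → ℂ) (J ζ : Fin D.length → ℂ), Y.AJ J ∧
    x = fun s => sx (β s) (1 / 2) (Y.v T J s) (ζ s)) ∧
  (∀ x : Fin D.length → Fin 6 → ℂ, So D x 0 ↔ ∃ (T : Fin d → ℂ) (J ζ : Fin D.length → ℂ), Y.AJ J ∧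
    x = fun s => sx (β s) 0 (Y.dv T J s) (ζ s)) ∧
  (∀ (w : Fin D.length → ℤ) (T T' : Fin d → ℂ) (J ζ J' ζ' : Fin D.length → ℂ), Y.AJ J → Y.AJ J' →
    GI w (fun s => sx (β s) (1 / 2) (Y.v T J s) (ζ s))
      (fun s => sx (β s) 0 (Y.dv T' J' s) (ζ' s)) = Y.GP w T J ζ T' J' ζ') ∧
  ∀ (w : Fin D.length → ℤ) (T : Fin d → ℂ) (J ζ : Fin D.length → ℂ), Y.AJ J →
    PI w (fun s => sx (β s) (1 / 2) (Y.v T J s) (ζ s)) = Y.Ph w T J ζ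

/-- the conclusion of `S_VF` -/
def VFc : Prop := ∀ D : List Pc, Val D 1 → Pri D 1 → D ≠ [] →
  ∀ a : Fin D.length → Fin 6 → ℝ, Pos D a → ∃ ρ : ℝ, 0 < ρ ∧
  ∀ (w : Fin D.length → ℤ) (x : Fin D.length → Fin 6 → ℂ), CrI D w x →
  (∀ s i, ‖x s i - a s i‖ < ρ) → VI x = 2 * Real.pi * (PI w x).re

lemma sx_n12 (β : Bool) (h : ℂ) (v : Fin 4 → ℂ) (ζ : ℂ) :
    n1 (sx β h v ζ) = h + ζ / 2 ∧ n2 (sx β h v ζ) = h - ζ / 2 := by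
  cases β <;> constructor <;>
    simp [sx, bf, n1, n2] <;> ring

lemma wf_abs {n : ℕ} (f : Fin n → Bool × ℕ) (k : Fin n) : |((wf f k : ℤ) : ℝ)| = (f k).2 := by
  unfold wf
  rcases h : (f k).1 with _ | _ <;> simp [sg]

/-- the normalization -/
lemma norm_eq (c nA card : ℕ) (hc : card + 2 * c = nA + 3) (N : ℕ) (hN : 1 ≤ N) (Z : ℝ) (E : ℝ) :
    ((N : ℝ) / Real.pi) ^ c * Z / (N * √N * Real.exp (N * E)) =
      (1 / Real.pi) ^ c * (√N ^ nA / √N ^ card * Real.exp (-(N * E)) * Z) := by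
  have hN' : (0 : ℝ) < N := by exact_mod_cast hN
  have hs : 0 < √(N : ℝ) := Real.sqrt_pos.2 hN'
  have hss : √(N : ℝ) ^ 2 = N := Real.sq_sqrt hN'.le
  have hpi := Real.pi_pos
  have e1 : √(N : ℝ) ^ nA / √(N : ℝ) ^ card = (N : ℝ) ^ c / (N * √N) := by
    rw [div_eq_div_iff (by positivity) (by positivity)]
    have e2 : (N : ℝ) * √N = √N ^ 3 := by
      rw [pow_succ, hss]
    have e3 : (N : ℝ) ^ c = √N ^ (2 * c) := by rw [pow_mul, hss]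
    rw [e2, e3, ← pow_add, ← pow_add]
    congr 1
    omega
  rw [e1, Real.exp_neg, div_pow, one_div, inv_pow]
  field_simp

/-- **the volume conjecture for highly twisted links on planar shadows** -/
theorem fin_ht (hA : ASc) (hS : SGc) (hE : S_NE) (hO : S_NO) (hR : S_NR) (hZ : NZc) (hT : NTc)
    (hD : S_NDi) (hV : VFc) (D : List Pc) (h1 : Val D 1) (h2 : Pri D 1) (h3 : D ≠ [])
    (a : Fin D.length → Fin 6 → ℝ) (ha : Mx D a) (hq : ∀ k, a k 0 ≤ 1 / 4 ∧ a k 3 ≤ 1 / 4) :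
    ∃ ρ0 : ℝ, 0 < ρ0 ∧ ∀ ρ : ℝ, 0 < ρ → ρ ≤ ρ0 → ∃ W0 C : ℝ, 1 ≤ W0 ∧
    ∀ (f : Fin D.length → Bool × ℕ) (Wm : ℝ), W0 ≤ Wm → (∀ k, Wm ≤ (f k).2) →
    ∃ x : Fin D.length → Fin 6 → ℂ, CrI D (wf f) x ∧ (∀ s i, ‖x s i - a s i‖ < ρ) ∧
      (∀ x', CrI D (wf f) x' → (∀ s i, ‖x' s i - a s i‖ < ρ) → x' = x) ∧
      (∀ s, 0 < (n1 (x s) - n2 (x s)).im) ∧
      |VI x - 2 * Real.pi * fV a| ≤ C / Wm ^ 2 ∧
      ∃ z : ℝ, 0 < z ∧ Tendsto (fun N : ℕ => ‖kas N D f‖ /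
        (N * √N * Real.exp (N * (VI x / (2 * Real.pi))))) atTop (𝓝 z) := by
  have hpi := Real.pi_pos
  obtain ⟨d, β, Y, hY⟩ := hE D h1 h2 h3 a ha
  obtain ⟨hOk, hv⟩ := hO D h1 h2 h3 a ha hq d β Y hY
  obtain ⟨ρa, hρa, hAs⟩ := hA _ _ Y hOk
  obtain ⟨Cd, hCd, hDi⟩ := hD D h1 h2 h3 a ha d β Y hY hOk
  obtain ⟨ρv, hρv, hVf⟩ := hV D h1 h2 h3 a ha.1
  obtain ⟨hT1, hT2, hT3, hT4⟩ := hT D h1 h2 h3 a ha d β Y hY hOk
  have hCd0 : 0 < Cd := by linarith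
  refine ⟨min (ρa / Cd) ρv, lt_min (by positivity) hρv, fun ρ hρ hρ' => ?_⟩
  have hρ1 : Cd * ρ ≤ ρa := by
    have := le_trans hρ' (min_le_left _ _)
    rw [le_div_iff₀ hCd0] at this
    linarith
  have hρ2 : ρ ≤ ρv := le_trans hρ' (min_le_right _ _)
  have hρ3 : ρ / Cd ≤ ρa := by
    refine le_trans ?_ hρ1
    rw [div_le_iff₀ hCd0]
    nlinarith [mul_pos hCd0 hρ]
  obtain ⟨W1, C1, hW1, hB1⟩ := hAs (ρ / Cd) (by positivity) hρ3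
  obtain ⟨W2, C2, hW2, hB2⟩ := hAs (Cd * ρ) (by positivity) hρ1
  refine ⟨max W1 W2, 2 * Real.pi * C1, le_trans hW1 (le_max_left _ _), fun f Wm hWm hf => ?_⟩
  have hf' : ∀ s, Wm ≤ |((wf f s : ℤ) : ℝ)| := fun s => by rw [wf_abs]; exact hf s
  obtain ⟨T, J, ζ, hc, hn, him, hval, -, z, hz, hlim⟩ :=
    hB1 (wf f) Wm (le_trans (le_max_left _ _) hWm) hf'
  obtain ⟨T2, J2, ζ2, hc2, hn2, -, -, hu2, -⟩ :=
    hB2 (wf f) Wm (le_trans (le_max_right _ _) hWm) hf'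
  have hle : ρ / Cd ≤ Cd * ρ := by
    rw [div_le_iff₀ hCd0]
    nlinarith [mul_pos hCd0 hρ, mul_pos (mul_pos hCd0 hρ) hCd0]
  have hmono : ∀ {T' : Fin d → ℂ} {J' ζ' : Fin D.length → ℂ}, Y.Nr (ρ / Cd) T' J' ζ' →
      Y.Nr (Cd * ρ) T' J' ζ' := fun h =>
    ⟨fun j => lt_of_lt_of_le (h.1 j) hle, fun s => lt_of_lt_of_le (h.2.1 s) hle,
      fun s => lt_of_lt_of_le (h.2.2 s) hle⟩
  have hun : ∀ (T' : Fin d → ℂ) (J' ζ' : Fin D.length → ℂ), Y.Cr (wf f) T' J' ζ' →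
      Y.Nr (Cd * ρ) T' J' ζ' → T' = T ∧ J' = J ∧ ζ' = ζ := by
    intro T' J' ζ' h4 h5
    obtain ⟨e1, e2, e3⟩ := hu2 T' J' ζ' h4 h5
    obtain ⟨e4, e5, e6⟩ := hu2 T J ζ hc (hmono hn)
    exact ⟨e1.trans e4.symm, e2.trans e5.symm, e3.trans e6.symm⟩
  set x : Fin D.length → Fin 6 → ℂ := fun s => sx (β s) (1 / 2) (Y.v T J s) (ζ s) with hx
  have hxc : CrI D (wf f) x := by
    refine ⟨(hT1 x).2 ⟨T, J, ζ, hc.aj, rfl⟩, fun δ hδ => ?_⟩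
    obtain ⟨T', J', ζ', hJ', rfl⟩ := (hT2 δ).1 hδ
    rw [hx, hT3 _ _ _ _ _ _ _ hc.aj hJ']
    exact hc.eq _ _ _ hJ'
  have hxn : ∀ s i, ‖x s i - a s i‖ < ρ := by
    intro s i
    have := (hDi (ρ / Cd) T J ζ (by positivity)).1 hn s i
    rwa [mul_div_cancel₀ _ hCd0.ne'] at this
  have hPI : PI (wf f) x = Y.Ph (wf f) T J ζ := hT4 _ _ _ _ hc.aj
  have hVI : VI x = 2 * Real.pi * (Y.Ph (wf f) T J ζ).re := by
    rw [← hPI]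
    exact hVf (wf f) x hxc fun s i => lt_of_lt_of_le (hxn s i) hρ2
  refine ⟨x, hxc, hxn, ?_, ?_, ?_, ‖z‖ * (1 / Real.pi) ^ D.length, by positivity, ?_⟩
  · intro x' hx' hn'
    obtain ⟨T', J', ζ', hJ', rfl⟩ := (hT1 x').1 hx'.1
    have h5 := (hDi ρ T' J' ζ' hρ).2 hn'
    have h4 : Y.Cr (wf f) T' J' ζ' := by
      refine ⟨hJ', fun T'' J'' ζ'' hJ'' => ?_⟩
      rw [← hT3 _ _ _ _ _ _ _ hJ' hJ'']
      exact hx'.2 _ ((hT2 _).2 ⟨T'', J'', ζ'', hJ'', rfl⟩)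
    obtain ⟨e1, e2, e3⟩ := hun T' J' ζ' h4 h5
    rw [hx, e1, e2, e3]
  · intro s
    have e1 := sx_n12 (β s) (1 / 2) (Y.v T J s) (ζ s)
    show 0 < (n1 (sx (β s) (1 / 2) (Y.v T J s) (ζ s)) -
      n2 (sx (β s) (1 / 2) (Y.v T J s) (ζ s))).im
    rw [e1.1, e1.2]
    have e2 : (1 / 2 + ζ s / 2 - (1 / 2 - ζ s / 2) : ℂ) = ζ s := by ring
    rw [e2]
    exact him s
  · rw [hVI, ← hv, ← mul_sub, abs_mul, abs_of_pos (by positivity : 0 < 2 * Real.pi), mul_div_assoc]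
    exact mul_le_mul_of_nonneg_left hval (by positivity)
  · have hl := (hlim.norm).mul_const ((1 / Real.pi) ^ D.length)
    refine hl.congr' ?_
    filter_upwards [eventually_ge_atTop 1] with N hN
    have hN0 : 0 < N := hN
    obtain ⟨θ, hθ, he⟩ := hS N hN0 D f h1
    have hk : ‖kas N D f‖ = ((N : ℝ) / Real.pi) ^ D.length * ‖Y.Z N (wf f)‖ := by
      unfold kas
      rw [dif_pos hN0, he, hZ D h1 h2 h3 a ha d β Y hY N hN0]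
      rw [norm_mul, norm_mul, hθ, one_mul, norm_pow, norm_div, Complex.norm_natCast,
        Complex.norm_real, Real.norm_of_nonneg hpi.le]
    have hE' : VI x / (2 * Real.pi) = (Y.Ph (wf f) T J ζ).re := by
      rw [hVI]; field_simp
    rw [hk, hE', norm_eq _ Y.nA (Fintype.card Y.Ix) (hR D h1 h2 h3 a ha d β Y hY) N hN]
    rw [norm_mul, norm_mul, norm_mul, norm_div, norm_pow, norm_pow, Complex.norm_real,
      Real.norm_of_nonneg (Real.sqrt_nonneg _), norm_pow, norm_neg, norm_one, one_pow, mul_one,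
      Complex.norm_exp]
    have e3 : (-(↑N * Y.Ph (wf f) T J ζ)).re = -(N * (Y.Ph (wf f) T J ζ).re) := by
      simp
    rw [e3]
    ring

end Pool.Agent.Q99.HT
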