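import Pool.Agent.Q99.KN.Stm1
import Pool.Agent.Q99.FAL.Stm3

/-!
# Highly twisted links on arbitrary planar shadows, part 1: one region, lattice points

Notation of `Pool/Agent/Q99/KN/Stm1.lean`: `sn N x = 2 sin (π x / N)`, `bc N n k = [n, k]` for complex
`n`, `zl N k = 2 k + 1 - N` (the lattice points), `Wk N z A b C` the sum of the weights of a twist
region with the corners `A` (below), `b` (right or left), `C` (above), `Fk` the weight.  At
`z = zl N k` one has `(N - 1 + z) / 2 = k` and `(N - 1 - z) / 2 = N - 1 - k`.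

`α : Fin 6 → ℝ` are the six angles of the region in the circle packing (in units of `2 π`); the
corners are `α 0`, `α 1 + α 4`, `α 3`, and `α 2 + α 5` for the eliminated corner.
-/

set_option autoImplicit false

namespace Pool.Agent.Q99.HT

open Finset Filter Topology
open Pool.Agent.W719.BS (D LL)
open Pool.Agent.Q99.FAL (bq hh S_T1)
open Pool.Agent.Q99.KN (sn bc Wk zl ez Fk cz S_PF S_WR)

/-- the six angles of a region; the corner `b` has the angles `α 1`, `α 4`, the eliminated corner has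
the angles `α 2`, `α 5` and is not an outer one. -/
structure Fr (α : Fin 6 → ℝ) : Prop where
  nn : ∀ i, 0 ≤ α i
  s1 : α 0 + α 1 + α 2 = 1 / 2
  s2 : α 3 + α 4 + α 5 = 1 / 2
  p2 : 0 < α 2
  p5 : 0 < α 5
  z14 : α 1 = 0 ↔ α 4 = 0
  cr : α 1 ≠ 0 → Real.tan (Real.pi * α 1) * Real.tan (Real.pi * α 5) =
    Real.tan (Real.pi * α 2) * Real.tan (Real.pi * α 4)
  nd : ¬ (α 0 = 0 ∧ α 1 = 0 ∧ α 3 = 0)

/-- the angles opposite to the common edge are not obtuse, `b` is the smaller one of the two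
corners -/
structure Acu (α : Fin 6 → ℝ) : Prop where
  o12 : α 1 ≤ α 2
  o45 : α 4 ≤ α 5
  q0 : α 0 ≤ 1 / 4
  q3 : α 3 ≤ 1 / 4

/-- the volume of the region, divided by `2 π` -/
noncomputable def v0 (α : Fin 6 → ℝ) : ℝ := ∑ i, hh (α i)

/-- the derivatives of the exponent with respect to the corners -/
noncomputable def ml (α : Fin 6 → ℝ) : Fin 3 → ℝ :=
  ![Real.log (Real.tan (Real.pi * α 2) / Real.tan (Real.pi * α 0)),
    Real.log (Real.tan (Real.pi * α 2) / Real.tan (Real.pi * α 1)),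
    Real.log (Real.tan (Real.pi * α 5) / Real.tan (Real.pi * α 3))]

/-- the corners -/
def qc (α : Fin 6 → ℝ) : Fin 3 → ℝ := ![α 0, α 1 + α 4, α 3]

/-- outer corners are zero -/
def Cmp (α : Fin 6 → ℝ) (A b C : ℕ) : Prop :=
  (α 0 = 0 → A = 0) ∧ (α 1 = 0 → b = 0) ∧ (α 3 = 0 → C = 0)

/-- the exponent -/
noncomputable def eX (N : ℕ) (α : Fin 6 → ℝ) (A b C : ℕ) : ℝ :=
  N * v0 α + ml α 0 * (A - N * α 0) + ml α 1 * (b - N * (α 1 + α 4)) + ml α 2 * (C - N * α 3)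

/-- the distance from the centre -/
noncomputable def dX (N : ℕ) (α : Fin 6 → ℝ) (A b C k : ℕ) : ℝ :=
  ((A : ℝ) - N * α 0) ^ 2 + ((b : ℝ) - N * (α 1 + α 4)) ^ 2 + ((C : ℝ) - N * α 3) ^ 2 +
    ((k : ℝ) - N / 2) ^ 2

/-- a term of `Wk` -/
noncomputable def Tm (N : ℕ) (z : ℂ) (A b C j : ℕ) : ℂ :=
  bc N ((N - 1 - z) / 2) A * bc N ((N - 1 + z) / 2) C *
    (bc N ((N - 1 + z) / 2) j * bc N ((N - 1 - z) / 2) (b - j)) *
    (bc N ((N - 1 + z) / 2) (A + j) * bc N ((N - 1 - z) / 2) (C + (b - j)))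

/-- **symmetries of `Wk`.**

Proof.  (1) is `S_SY`'s argument for the substitution `z ↦ - z`: let `γ = N - 1 - A - β - C`,
induction on `β + γ`.  For `z` outside a discrete set `s(n1-C) s(n2-C) ≠ 0` (this is invariant under
`z ↦ -z`, which exchanges `n1` and `n2`) and `S_WR` expresses `Wk N z A β C` by values with smaller
`β + γ` and larger `C`, with coefficients independent of `z`; in the last case `cz` is even
(`sin² (π (-z-N+1)/2) = sin² (π (z+N-1)/2)`, and `N - 1`, `1 - N` differ by an even number).  Then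
continuity in `z`.  See the proof of `S_SY` (`Pool/Agent/Q208/KN/SY.lean`).
(2) `b1 ↔ b2` in the sum (`Finset.sum_range_reflect`), and `z ↦ - z` exchanges `n1` and `n2`.
(3) from (1) and (2). -/
def S_EV : Prop := S_PF → S_WR → ∀ N : ℕ, 0 < N → ∀ (z : ℂ) (A b C : ℕ), A + b + C < N →
  Wk N (-z) A b C = Wk N z A b C ∧ Wk N (-z) A b C = Wk N z C b A ∧ Wk N z A b C = Wk N z C b A

/-- **brackets at the lattice points.**

Proof.  `bc N n k = D n / (D k D (n - k))` for natural `k ≤ n < N` (`sn N (n - j) > 0`), `= 0` for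
`n < k` (a factor vanishes) — compare `Q210/KN/WB.lean`, where this is used.  (1).
(2) `deriv` of `z ↦ bc N ((N-1+z)/2) k` is `± 1/2` times `(π/N) ∑_{j<k} cot (π (n-j)/N)` times the
value; `|cot (π m / N)| ≤ N/π · 1/m ≤ N` for `0 < m < N` (`|cot x| ≤ 1/x` for `0 < x ≤ π/2`,
symmetry).  (3) For `n < k < N` only the factor `j = n` vanishes; the modulus of the derivative is
`(π/N) D n D (k-1-n) / D k`, `D (v-1) = D v / s(v)`, `v = k - n`, and
`D k / (D n D v) = [n', v]` with `n' = N - 1 - n` by `D m D (N-1-m) = N` (twice, `v ≤ n'`); finally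
`π / (N s(v)) ≤ π/4` because `s(v) ≥ s(1) ≥ 4/N` for `N ≥ 2`.
(4) `bq N n v = N / (D (N-1-n) D v D (n-v))` is symmetric in the three numbers `x1 ≤ x2 ≤ x3` with
the sum `N - 1`, and equals `[x1 + x2, x1] = ∏_{i<x1} s(x1+x2-i) / s(x1-i)`, where
`x1-i ≤ x1+x2-i ≤ N-(x1-i)`, so each factor is `≥ 1` (`s` is increasing on `[0, N/2]`,
`s(N-x) = s(x)`).
(5) `[A, v] ≤ [m, v]`: factors `s(A-i) ≤ s(m-i)` for `i < v`, since `A-i ≤ m-i ≤ N-(A-i)`. -/
def S_D1 : Prop := ∀ N : ℕ, 1 ≤ N →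
  (∀ n k : ℕ, n < N → k < N → bc N n k = ((bq N n k : ℝ) : ℂ)) ∧
  (∀ n k : ℕ, n < N → k ≤ n →
    ‖deriv (fun z : ℂ => bc N ((N - 1 + z) / 2) k) (zl N n)‖ ≤ 4 * N ^ 2 * bq N n k ∧
    ‖deriv (fun z : ℂ => bc N ((N - 1 - z) / 2) k) (-zl N n)‖ ≤ 4 * N ^ 2 * bq N n k) ∧
  (∀ n k : ℕ, n < k → k < N →
    ‖deriv (fun z : ℂ => bc N ((N - 1 + z) / 2) k) (zl N n)‖ * bq N (N - 1 - n : ℕ) (k - n : ℕ) ≤ 1 ∧
    ‖deriv (fun z : ℂ => bc N ((N - 1 - z) / 2) k) (-zl N n)‖ *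
      bq N (N - 1 - n : ℕ) (k - n : ℕ) ≤ 1) ∧
  (∀ n v : ℕ, n < N → v ≤ n → 1 ≤ bq N n v) ∧
  (∀ A m v : ℕ, v ≤ A → A ≤ m → m + A ≤ N → m < N → bq N A v ≤ bq N m v)

/-- **Gaussian bound of a product of brackets.**

Proof.  `S_T1` for the six brackets with the centres `α 0`, `α 3`, `α 1`, `α 4`, `1/2 - α 2`,
`1/2 - α 5`; a bracket whose centre is `0` has `k = 0` (by `Cmp`) and is `≤ 1`; centres are `< 1/2` by
`p2`, `p5` and because `α 0 < 1/2`, … .  Let `t_i = tan (π α i)`, `θ_i = π α i`.  The coefficient of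
`A` is `- log t_0 + log t_2` (`tan (π (1/2 - α 2)) = 1/t_2`), of `C` is `- log t_3 + log t_5`, of `j`
(if `α 1 ≠ 0`) `- log t_1 + log t_4 + log t_2 - log t_5 = 0` by `cr`, of `b`
`- log t_4 + log t_5 = log t_2 - log t_1`.  The `hh` add up to `v0` (`hh (1/2 - x) = hh x`).  The
coefficient of `n1 - N/2` is `L1 = -(log cos θ_1 + log sin θ_2 + log cos θ_3)`, of `n2 - N/2` it is
`L2 = -(log cos θ_0 + log cos θ_4 + log sin θ_5)` (a bracket with centre `0` contributes `0` here: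
`cos 0 = 1`, and `sin (π/2) = 1`); `n1 - N/2 = -(n2 - N/2) - 1`, so it suffices that `L1 = L2`: by
`cos θ_0 = sin (θ_1+θ_2)`, `cos θ_3 = sin (θ_4+θ_5)`; if `α 1 ≠ 0`,
`cos θ_0 = cos θ_1 cos θ_2 (t_1+t_2)`, `cos θ_3 = cos θ_4 cos θ_5 (t_4+t_5)` and `cr`; if `α 1 = 0`,
`cos θ_0 = sin θ_2`, `cos θ_3 = sin θ_5`.
The quadratic terms control `A`, `C`, `j`, `b - j` (if their centres are not `0`; otherwise they
vanish), and `n1` or `n2` because at least one bracket has a centre `≠ 0` (`nd`). -/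
def S_TG : Prop := S_T1 → ∀ α : Fin 6 → ℝ, Fr α → ∃ C0 κ : ℝ, 0 < κ ∧ ∀ N n1 n2 A b C j : ℕ,
  n1 + n2 + 1 = N → j ≤ b → Cmp α A b C →
  bq N n2 A * bq N n1 C * (bq N n1 j * bq N n2 (b - j : ℕ)) *
      (bq N n1 (A + j : ℕ) * bq N n2 (C + (b - j) : ℕ)) ≤
    C0 * Real.exp (eX N α A b C - κ * (dX N α A b C n1 + ((j : ℝ) - N * α 1) ^ 2) / N)

/-- **the same without the first bracket**, if `n2 < A`: the loss is compensated.

Proof.  As `S_TG` for five brackets; the exponent is the one of `S_TG` minus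
`f = N hh α0 - log t0 (A - N α0) - log cos θ0 (n2 - N/2)` plus `O(1)`, and (`A ≥ n2`,
`- log t0 ≥ 0` since `α0 ≤ 1/4`, `α0 ≠ 0` since `A ≠ 0`)
`f ≥ N (hh α0 + α0 log t0 + (1/2) log cos θ0) - n2 log sin θ0 ≥ N (α0 + (1/2) log cos θ0)`, because
`hh α + α log tan (π α) = ∫_0^α 2 π t / sin (2 π t) dt ≥ α`; `α + (1/2) log cos (π α)` is concave,
`0` at `0` and positive at `1/4`, so positive on `(0, 1/4]`.  So there is an exponential gain, and a
smaller `κ` works because `dX + (j - N α1)² ≤ 5 N²`. -/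
def S_TG5 : Prop := S_T1 → ∀ α : Fin 6 → ℝ, Fr α → Acu α → ∃ C0 κ : ℝ, 0 < κ ∧
  ∀ N n1 n2 A b C j : ℕ, n1 + n2 + 1 = N → j ≤ b → A + b + C < N → Cmp α A b C → n2 < A →
  bq N n1 C * (bq N n1 j * bq N n2 (b - j : ℕ)) *
      (bq N n1 (A + j : ℕ) * bq N n2 (C + (b - j) : ℕ)) ≤
    C0 * Real.exp (eX N α A b C - κ * (dX N α A b C n1 + ((j : ℝ) - N * α 1) ^ 2) / N)

/-- **bound of a term at the lattice points**, for small `A` and `C`.

Proof.  `n1 = k`, `n2 = N - 1 - k`; `[n2, A]` and `[n1, C]` do not vanish.  Value: `S_TG`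
(`S_D1` (1)).  Derivative: product rule.  If no bracket vanishes: `S_D1` (2) for each, `S_TG`.  If
`j > n1` then also `A + j > n1`, two factors vanish and the derivative is `0`; the same if
`b - j > n2`, or if `A + j > n1` and `C + (b-j) > n2`.  Let `v = A + j - n1 ≥ 1` (so `v ≤ A`),
`j ≤ n1`, and `C + (b-j) ≤ n2`: by `S_D1` (3) the derivative has the modulus at most
`[n2,A] [n1,C] [n1,j] [n2,b-j] [n2,C+(b-j)] / [n2,v]`.  Compare with the product `P` for
`(A, b - v, C)` and `j - v ≥ 0` (`j - v = n1 - A`), in which `[n1, A + (j - v)] = [n1, n1] = 1` and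
`b - j` is the same: the quotient is `[n1,j] / ([n1,j-v] [n2,v]) = [A,v] / ([j,v] [n2,v]) ≤ 1`
(`[n,k] = D n / (D k D (n-k))`, `n1 - j = A - v`; `S_D1` (4), (5) with `A ≤ n2`, `A + n2 ≤ N` as
`A ≤ n1`).  By `S_TG`, `P ≤ C0 exp (eX(A, b-v, C) - κ (…)/N)`; `eX(A, b-v, C) = eX(A, b, C) -
v log (t_2/t_1) ≤ eX(A, b, C)` by `o12` (`α 1 ≠ 0` because `b ≥ v > 0`), and the sum of the squares
of `A - N α0`, `(j - v) - N α1`, `n1 - N/2` is at least `(N α2)²/3`, since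
`(n1 - N/2) - (A - N α0) - ((j-v) - N α1) = - N α2`… (`j - v = n1 - A`, `α0 + α1 + α2 = 1/2`).  So
there is an exponential gain, and a smaller `κ` works because `dX + (j - N α1)² ≤ 5 N²`.
The case `C + (b-j) > n2`, `A + j ≤ n1` is symmetric (`v = C + (b-j) - n2 ≤ C`, `(A, b-v, C)`, same
`j`; `log (t_2/t_1) = log (t_5/t_4)`). -/
def S_TW : Prop := S_D1 → S_TG → S_T1 → ∀ α : Fin 6 → ℝ, Fr α → Acu α → ∃ C0 κ : ℝ, 0 < κ ∧
  ∀ N A b C j k : ℕ, A + b + C < N → Cmp α A b C → j ≤ b → k < N →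
  A ≤ k → A + k < N → C ≤ k → C + k < N →
  ‖Tm N (zl N k) A b C j‖ + ‖deriv (fun z => Tm N z A b C j) (zl N k)‖ ≤ C0 * N ^ 2 *
    Real.exp (eX N α A b C - κ * (dX N α A b C k + ((j : ℝ) - N * α 1) ^ 2) / N)

/-- **bound of the sum at the lattice points.**

Proof.  If `A`, `C ≤ min (k, N-1-k)`: sum `S_TW` over `j ≤ b` (at most `N` terms).  Otherwise: by
`S_EV` (`zl N (N-1-k) = - zl N k`, `deriv` of an even function is odd) we may assume
`n2 = N-1-k ≤ n1 = k`; by `S_EV` (3) and the reversed angles `![α 3, α 4, α 5, α 0, α 1, α 2]`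
(which satisfy `Fr` and `Acu`, with the same `eX`, `dX` for `C b A` — the second component of `ml`
is the same by `cr`; take the worse constants) we may assume `n2 < A`.  Then `[n2, A]` vanishes at
`z`.  If also `n1 < A` or `n2 < C`, then in every term a second bracket vanishes (`[n1, A+j]`,
`[n2, C+(b-j)]`), and value and derivative are `0`.  Otherwise the value is `0` and the derivative is
`deriv [n2, A]` times the sum over `j` of the products of the other five brackets, and `S_D1` (3), (4)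
give `‖deriv [n2, A]‖ ≤ 1`; `S_TG5`. -/
def S_BB : Prop := S_EV → S_PF → S_WR → S_D1 → S_TG → S_TG5 → S_TW → S_T1 →
  ∀ α : Fin 6 → ℝ, Fr α → Acu α → ∃ C0 κ : ℝ, 0 < κ ∧
  ∀ N A b C k : ℕ, A + b + C < N → Cmp α A b C → k < N →
  ‖Wk N (zl N k) A b C‖ + ‖deriv (fun z => Wk N z A b C) (zl N k)‖ ≤ C0 * N ^ 3 *
    Real.exp (eX N α A b C - κ * dX N α A b C k / N)

/-- **bound of the weight of a region.**

Proof.  At lattice points `|ez| = 1`, `|deriv ez| ≤ π |w| / 2`, `|sin (π z/N)| ≤ 1`, its derivative is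
at most `π`.  Product rule, sum over `k < N`, `S_BB` (drop the last square of `dX`). -/
def S_FB : Prop := S_BB → S_EV → S_PF → S_WR → S_D1 → S_TG → S_TG5 → S_TW → S_T1 →
  ∀ α : Fin 6 → ℝ, Fr α → Acu α → ∃ κ : ℝ, 0 < κ ∧ ∀ w : ℤ, ∃ C0 : ℝ,
  ∀ N A b C : ℕ, A + b + C < N → Cmp α A b C →
  ‖Fk N w A b C‖ ≤ C0 * N ^ 4 * Real.exp (eX N α A b C -
    κ * (((A : ℝ) - N * α 0) ^ 2 + ((b : ℝ) - N * (α 1 + α 4)) ^ 2 + ((C : ℝ) - N * α 3) ^ 2) / N)

end Pool.Agent.Q99.HT
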