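import Pool.Agent.Q99.HT.Stm1
import Pool.Agent.Q99.KN.Stm3

/-!
# Highly twisted links on arbitrary planar shadows, part 2: one region, analysis

`TB N ν ξ` is the bracket `[n, k]` at `k = N ξ`, `n = N ν - 1/2` as an analytic function,
`LT ν ξ` its potential, `gT`, `hT` its first and second derivatives.  A region has the variables
`v : Fin 4 → ℂ` (corners `v 0`, `v 1`, `v 2` and the summation index `v 3`) and `ζ` (`z = N ζ`).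
The brackets with the centre `0` are equal to `1` and are left out.
-/

set_option autoImplicit false

namespace Pool.Agent.Q99.HT

open Finset Filter Topology MeasureTheory
open Pool.Agent.W719.BS (D LL)
open Pool.Agent.Q99.FAL (bq hh S_T1)
open Pool.Agent.Q99.KN (sn bc Wk zl ez Fk cz S_PF S_WR LC bb Gm St ct S_LC S_GAM S_PX S_PZ QZ kz th jN)

/-- the bracket as an analytic function -/
noncomputable def TB (N : ℕ) (ν ξ : ℂ) : ℂ :=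
  Gm N ν / ((√N : ℝ) * Gm N (ν - ξ) * Gm N (ξ + 1 / (2 * N)))

/-- its potential -/
noncomputable def LT (ν ξ : ℂ) : ℂ := LC ν - LC (ν - ξ) - LC ξ

/-- the derivative of `LT` in the direction `(a, b)` -/
noncomputable def gT (ν ξ a b : ℂ) : ℂ := a * (bb ν - bb (ν - ξ)) + b * (bb (ν - ξ) - bb ξ)

/-- the second derivative of `LT` -/
noncomputable def hT (ν ξ a b a' b' : ℂ) : ℂ :=
  a * a' * (ct ν - ct (ν - ξ)) + (a * b' + a' * b) * ct (ν - ξ) - b * b' * (ct (ν - ξ) + ct ξ)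

/-- the derivatives.

Proof.  `S_LC` and the chain rule. -/
def S_LTd : Prop := S_LC → ∀ ν ξ : ℂ, ν ∈ St → ξ ∈ St → ν - ξ ∈ St → ∀ a b a' b' : ℂ,
  HasDerivAt (fun t : ℂ => LT (ν + t * a) (ξ + t * b)) (gT ν ξ a b) 0 ∧
  HasDerivAt (fun t : ℂ => gT (ν + t * a) (ξ + t * b) a' b') (hT ν ξ a b a' b') 0

/-- **the brackets are values of `TB`.**

Proof.  Inside the proof of `S_WG` (`Q210/KN/WG.lean`): by iteration of (2) of `S_GAM`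
`∏_{j<k} s(n - j) = Gm (1/2 + ζ/2) / Gm (1/2 + ζ/2 - k/N)` for `n = (N - 1 + Nζ)/2`
(`s(n - j) = 2 sin π (1/2 + ζ/2 - (j + 1/2)/N)`), and `D k = √N Gm (k/N + 1/(2N))` (`Gm` is positive
there and `D k ^ 2 = N Gm ^ 2`). -/
def S_TBI : Prop := S_LC → S_GAM → ∀ N k : ℕ, 1 ≤ N → ∀ ζ : ℂ, |ζ.re| / 2 + k / N < 1 / 2 →
  bc N ((N - 1 + N * ζ) / 2) k = TB N (1 / 2 + ζ / 2) (k / N)

/-- all local properties of one bracket with the centre `x` -/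
structure Brk (x ρ κ K C0 : ℝ) : Prop where
  ρ0 : 0 < ρ
  ρ1 : 8 * ρ ≤ x
  ρ2 : 8 * ρ ≤ 1 / 2 - x
  κ0 : 0 < κ
  κK : κ ≤ K
  C1 : 1 ≤ C0
  diff : ∀ N : ℕ, 1 ≤ N → DifferentiableOn ℂ (fun p : ℂ × ℂ => TB N p.1 p.2)
    (Metric.ball (1 / 2) ρ ×ˢ Metric.ball (x : ℂ) ρ)
  int : ∀ N k : ℕ, 1 ≤ N → ∀ ζ : ℂ, |(k : ℝ) / N - x| < ρ → ‖ζ‖ < 2 * ρ →
    bc N ((N - 1 + N * ζ) / 2) k = TB N (1 / 2 + ζ / 2) (k / N)
  maj : ∀ N : ℕ, 1 ≤ N → ∀ ν ξ : ℂ, ‖ν - 1 / 2‖ < ρ → ‖ξ - x‖ < ρ → ‖TB N ν ξ‖ ≤ C0 *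
    Real.exp (N * (hh x - Real.log (Real.tan (Real.pi * x)) * (ξ.re - x) -
      Real.log (Real.cos (Real.pi * x)) * (ν.re - 1 / 2) -
      κ * ((ξ.re - x) ^ 2 + (ν.re - 1 / 2) ^ 2) + K * (ξ.im ^ 2 + ν.im ^ 2)))
  asy : ∀ N : ℕ, 1 ≤ N → ∀ ν ξ : ℂ, ‖ν - 1 / 2‖ < ρ → ‖ξ - x‖ < ρ →
    ‖TB N ν ξ * ((√N : ℝ) * Complex.exp (bb ξ / 2)) * Complex.exp (-(N * LT ν ξ)) - 1‖ ≤ C0 / N
  hes : ∀ ν ξ : ℂ, ‖ν - 1 / 2‖ < ρ → ‖ξ - x‖ < ρ → ∀ a b : ℝ,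
    (hT ν ξ a b a b).re ≤ -(2 * κ) * (a ^ 2 + b ^ 2)

/-- the asymptotics of a bracket.

Proof.  `TB` is a quotient of values of `Gm` at points whose real parts are in `[δ, 1 - δ]` for a
`δ > 0` depending on `x` (`ξ + 1/(2N)` has real part at most `x + ρ + 1/2`); `S_GAM` (1), (3)
(`Gm` does not vanish: it is an exponential, or (4)), and
`N (LC (ξ + 1/(2N)) - LC ξ) = bb ξ / 2 + O(1/N)` (`S_LC`; `bb` is Lipschitz there). -/
def S_TBA : Prop := S_LC → S_GAM → ∀ x : ℝ, 0 < x → x < 1 / 2 → ∀ ρ : ℝ, 0 < ρ → 8 * ρ ≤ x →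
  8 * ρ ≤ 1 / 2 - x → ∃ C0 : ℝ, ∀ N : ℕ, 1 ≤ N →
  DifferentiableOn ℂ (fun p : ℂ × ℂ => TB N p.1 p.2)
    (Metric.ball (1 / 2) ρ ×ˢ Metric.ball (x : ℂ) ρ) ∧
  ∀ ν ξ : ℂ, ‖ν - 1 / 2‖ < ρ → ‖ξ - x‖ < ρ →
    ‖TB N ν ξ * ((√N : ℝ) * Complex.exp (bb ξ / 2)) * Complex.exp (-(N * LT ν ξ)) - 1‖ ≤ C0 / N

/-- the potential of a bracket near its centre.

Proof.  At `(1/2, x)`: `LT = hh x` (`LC (1/2) = 0`), `gT = - a log cos (π x) - b log tan (π x)`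
(`bb (1/2) = log 2`, `bb (1/2 - x) = log (2 cos π x)`, `bb x = log (2 sin π x)`),
`hT = - π tan (π x) (a - b)² - π cot (π x) b²` for `a' = a`, `b' = b` (`ct (1/2) = 0`,
`ct (1/2 - x) = π tan (π x)`), which is `≤ - 4 κ (a² + b²)` for real `a`, `b`; `hT` is continuous, so
the last statement holds on a small polydisc.  The first one: Taylor's formula with integral
remainder along the segment from the centre (as in the proof of `S_HM`, `Q208/KN/HM.lean`). -/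
def S_LTH : Prop := S_LC → S_LTd → ∀ x : ℝ, 0 < x → x < 1 / 2 → ∃ ρ κ K : ℝ, 0 < ρ ∧
  8 * ρ ≤ x ∧ 8 * ρ ≤ 1 / 2 - x ∧ 0 < κ ∧ κ ≤ K ∧
  (∀ ν ξ : ℂ, ‖ν - 1 / 2‖ < ρ → ‖ξ - x‖ < ρ → (LT ν ξ).re ≤
    hh x - Real.log (Real.tan (Real.pi * x)) * (ξ.re - x) -
      Real.log (Real.cos (Real.pi * x)) * (ν.re - 1 / 2) -
      κ * ((ξ.re - x) ^ 2 + (ν.re - 1 / 2) ^ 2) + K * (ξ.im ^ 2 + ν.im ^ 2)) ∧
  ∀ ν ξ : ℂ, ‖ν - 1 / 2‖ < ρ → ‖ξ - x‖ < ρ → ∀ a b : ℝ,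
    (hT ν ξ a b a b).re ≤ -(2 * κ) * (a ^ 2 + b ^ 2)

/-- the constants of a bracket exist.

Proof.  `maj` from `asy` and `S_LTH` (`√N ≥ 1`, `|exp (bb ξ / 2)|` is bounded below). -/
def S_BRK : Prop := S_LC → S_GAM → S_LTd → S_TBI → S_TBA → S_LTH →
  ∀ x : ℝ, 0 < x → x < 1 / 2 → ∃ ρ κ K C0 : ℝ, Brk x ρ κ K C0

/-! ### a region -/

/-- the centres of the six brackets -/
noncomputable def ctr (α : Fin 6 → ℝ) : Fin 6 → ℝ :=
  ![α 0, α 1, 1 / 2 - α 2, α 3, α 4, 1 / 2 - α 5]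

/-- the lower entries of the brackets as linear forms -/
def lf (v : Fin 4 → ℂ) : Fin 6 → ℂ := ![v 0, v 3, v 0 + v 3, v 2, v 1 - v 3, v 2 + (v 1 - v 3)]

/-- the signs of `ζ` in the upper entries -/
def s6 : Fin 6 → ℂ := ![-1, 1, 1, 1, -1, -1]

/-- the upper entries -/
noncomputable def nz (ζ : ℂ) (i : Fin 6) : ℂ := 1 / 2 + s6 i * ζ / 2

/-- the centre of the region -/
noncomputable def vC (α : Fin 6 → ℝ) : Fin 4 → ℂ :=
  ![(α 0 : ℂ), (α 1 : ℂ) + (α 4 : ℂ), (α 3 : ℂ), (α 1 : ℂ)]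

/-- the variables of outer corners vanish -/
def Adm (α : Fin 6 → ℝ) (v : Fin 4 → ℂ) : Prop :=
  (α 0 = 0 → v 0 = 0) ∧ (α 1 = 0 → v 1 = 0 ∧ v 3 = 0) ∧ (α 3 = 0 → v 2 = 0)

/-- the product of the brackets -/
noncomputable def PB (N : ℕ) (α : Fin 6 → ℝ) (v : Fin 4 → ℂ) (ζ : ℂ) : ℂ :=
  ∏ i, if ctr α i = 0 then 1 else TB N (nz ζ i) (lf v i)

/-- the potential of the region -/
noncomputable def PE (α : Fin 6 → ℝ) (v : Fin 4 → ℂ) (ζ : ℂ) : ℂ :=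
  ∑ i, if ctr α i = 0 then 0 else LT (nz ζ i) (lf v i)

/-- its derivative in the direction `(u, b)` -/
noncomputable def PG (α : Fin 6 → ℝ) (v : Fin 4 → ℂ) (ζ : ℂ) (u : Fin 4 → ℂ) (b : ℂ) : ℂ :=
  ∑ i, if ctr α i = 0 then 0 else gT (nz ζ i) (lf v i) (s6 i * b / 2) (lf u i)

/-- its second derivative -/
noncomputable def PH (α : Fin 6 → ℝ) (v : Fin 4 → ℂ) (ζ : ℂ) (u : Fin 4 → ℂ) (b : ℂ)
    (u' : Fin 4 → ℂ) (b' : ℂ) : ℂ :=
  ∑ i, if ctr α i = 0 then 0 else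
    hT (nz ζ i) (lf v i) (s6 i * b / 2) (lf u i) (s6 i * b' / 2) (lf u' i)

/-- the amplitude of the region -/
noncomputable def PA (α : Fin 6 → ℝ) (v : Fin 4 → ℂ) : ℂ :=
  ∏ i, if ctr α i = 0 then 1 else Complex.exp (bb (lf v i) / 2)

/-- the number of the brackets -/
noncomputable def na (α : Fin 6 → ℝ) : ℕ := ∑ i, if ctr α i = 0 then 0 else 1

/-- the linear part of the exponent -/
noncomputable def mR (α : Fin 6 → ℝ) (x : Fin 3 → ℝ) : ℝ := ∑ i, ml α i * (x i - qc α i)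

/-- the square of the distance of the corners from the centre -/
noncomputable def sR (α : Fin 6 → ℝ) (x : Fin 3 → ℝ) : ℝ := ∑ i, (x i - qc α i) ^ 2

/-- the real parts of the corners -/
def r3 (v : Fin 4 → ℂ) : Fin 3 → ℝ := ![(v 0).re, (v 1).re, (v 2).re]

/-- all local properties of a region -/
structure Blk (α : Fin 6 → ℝ) (r κ K C0 : ℝ) : Prop where
  r0 : 0 < r
  r1 : r ≤ 1 / 64
  κ0 : 0 < κ
  κK : κ ≤ K
  C1 : 1 ≤ C0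
  sml : ∀ i, ctr α i ≠ 0 → 32 * r ≤ ctr α i ∧ 32 * r ≤ 1 / 2 - ctr α i
  diff : ∀ N : ℕ, 1 ≤ N → DifferentiableOn ℂ (fun p : (Fin 4 → ℂ) × ℂ => PB N α p.1 p.2)
    (Metric.ball (vC α) r ×ˢ Metric.ball 0 r)
  int : ∀ N A b C j : ℕ, 1 ≤ N → j ≤ b → Cmp α A b C → |(A : ℝ) / N - α 0| < r →
    |(b : ℝ) / N - (α 1 + α 4)| < r → |(C : ℝ) / N - α 3| < r → |(j : ℝ) / N - α 1| < r →
    ∀ ζ : ℂ, ‖ζ‖ < r → Tm N (N * ζ) A b C j =
      PB N α ![(A : ℂ) / N, (b : ℂ) / N, (C : ℂ) / N, (j : ℂ) / N] ζ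
  maj : ∀ N : ℕ, 1 ≤ N → ∀ v ∈ Metric.ball (vC α) r, Adm α v → ∀ ζ : ℂ, ‖ζ‖ < r →
    ‖PB N α v ζ‖ ≤ C0 * Real.exp (N * (v0 α + mR α (r3 v) -
      κ * (∑ i, ((v i).re - (vC α i).re) ^ 2 + ζ.re ^ 2) + K * (∑ i, (v i).im ^ 2 + ζ.im ^ 2)))
  asy : ∀ N : ℕ, 1 ≤ N → ∀ v ∈ Metric.ball (vC α) r, Adm α v → ∀ ζ : ℂ, ‖ζ‖ < r →
    ‖PB N α v ζ * (((√N : ℝ) : ℂ) ^ na α * PA α v) * Complex.exp (-(N * PE α v ζ)) - 1‖ ≤ C0 / N
  hes : ∀ v ∈ Metric.ball (vC α) r, ∀ ζ : ℂ, ‖ζ‖ < r → ∀ (u : Fin 4 → ℝ) (b : ℝ),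
    Adm α (fun i => (u i : ℂ)) → (PH α v ζ (fun i => (u i : ℂ)) b (fun i => (u i : ℂ)) b).re ≤
      -(2 * κ) * (∑ i, u i ^ 2 + b ^ 2)
  der : ∀ v ∈ Metric.ball (vC α) r, ∀ ζ : ℂ, ‖ζ‖ < r → ∀ (u u' : Fin 4 → ℂ) (b b' : ℂ),
    HasDerivAt (fun t : ℂ => PE α (v + t • u) (ζ + t * b)) (PG α v ζ u b) 0 ∧
    HasDerivAt (fun t : ℂ => PG α (v + t • u) (ζ + t * b) u' b') (PH α v ζ u b u' b') 0
  bdd : ∀ v ∈ Metric.ball (vC α) r, ∀ ζ : ℂ, ‖ζ‖ < r → ∀ (u u' : Fin 4 → ℂ) (b b' : ℂ),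
    ‖PH α v ζ u b u' b'‖ ≤ C0 * (‖u‖ + ‖b‖) * (‖u'‖ + ‖b'‖)
  cen : ∀ (u : Fin 4 → ℂ) (b : ℂ), Adm α u →
    PG α (vC α) 0 u b = (ml α 0 : ℂ) * u 0 + (ml α 1 : ℂ) * u 1 + (ml α 2 : ℂ) * u 2
  val : PE α (vC α) 0 = (v0 α : ℂ)

/-- **the constants of a region exist.**

Proof.  Take `Brk` for the centres `≠ 0` (they are in `(0, 1/2)` by `Fr`), and `r` so small that the
entries of the brackets stay in their discs (`|lf v i - ctr α i| ≤ 3 r`, `|ζ/2| < r`; `lf (vC α) i =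
ctr α i`, for `i = 2`, `5` by `s1`, `s2`).
`int`: a bracket with the centre `0` has the lower entry `0` (`Cmp`; `α 1 = 0` implies `b = j = 0`)
and is `1`; the others by `Brk.int` for `ζ` or `-ζ`; `((b - j : ℕ) : ℝ) = b - j`.
`maj`: multiply `Brk.maj`.  The linear parts add up to `mR` as in the proof of `S_TG` (the
coefficients of `v 3` and of `ζ` vanish: `cr`, and `L1 = L2` there); the quadratic forms
`∑ (Re (lf v i) - ctr)²` (over the brackets with centre `≠ 0`) control all admissible `v` (if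
`α 0 ≠ 0`: `v 0`, if `α 3 ≠ 0`: `v 2`, if `α 1 ≠ 0`: `v 3` and `v 1 - v 3`; the others vanish, as do
the corresponding entries of `vC`), and at least one bracket controls `Re ζ` (`nd`).
`asy`: product of the `Brk.asy`.  `hes`: `Brk.hes` with real `a = ± b/2`, `lf u i`.
`der`: `S_LTd`.  `bdd`: `ct` is bounded on the discs.  `cen`: `bb (1/2) - bb (1/2 - x) =
- log cos (π x)`, `bb (1/2 - x) - bb x = - log tan (π x)` and the linear algebra of `S_TG`.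
`val`: `LT (1/2) x = hh x`. -/
def S_BLK : Prop := S_LC → S_LTd → (∀ x : ℝ, 0 < x → x < 1 / 2 → ∃ ρ κ K C0 : ℝ, Brk x ρ κ K C0) →
  ∀ α : Fin 6 → ℝ, Fr α → ∃ r κ K C0 : ℝ, Blk α r κ K C0

/-- monotonicity -/
def S_BMO : Prop := ∀ (α : Fin 6 → ℝ) (r κ K C0 r' κ' K' C0' : ℝ), Blk α r κ K C0 → 0 < r' →
  r' ≤ r → 0 < κ' → κ' ≤ κ → K ≤ K' → C0 ≤ C0' → Blk α r' κ' K' C0'

/-- the zero vector and the unit vector of the summation index -/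
def e3 : Fin 4 → ℂ := ![0, 0, 0, 1]

/-- **the variable `ζ` separates**: at a point which is critical in the summation index, the
derivative in `ζ` is `ζ` times a factor which is close to a negative number.

Proof.  Let `θ_i = π (lf v i)`; write `a, b, c, j` for `v`.  At `ζ = 0`:
(A) if `α 1 ≠ 0` and the derivative in `j` vanishes, then
`cot πj cot π(a+j) = cot π(b-j) cot π(c+b-j) =: P` (exponential of `PG α v 0 e3 0 = 0`:
`bb (1/2 - x) - bb x` is a logarithm of `cot π x`), and `2 PG α v 0 0 1 = ∑ s6 i (bb (1/2) -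
bb (1/2 - ξ_i))` is a logarithm of `cos πa cos π(b-j) cos π(c+b-j) / (cos πj cos π(a+j) cos πc)`
(if `α 0 = 0` the factor `cos π a` is `1`; the same for `c`), which is `1` because
`cos πa = cos πj cos π(a+j) (1 + 1/P)`, `cos πc = cos π(b-j) cos π(c+b-j) (1 + 1/P)`.  Near the centre
this logarithm is close to its value `0` at the centre (`Blk.cen` with `u = 0`, `b = 1`), so it is
`0`.  If `α 1 = 0` (then `v 1 = v 3 = 0`) the potential is even in `ζ` and `PG α v 0 0 1 = 0`.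
(B) Let `α 1 ≠ 0`.  `f(v 3, ζ) = PG α v ζ e3 0` has the derivative `PH .. e3 0 e3 0 =: q` in `v 3`,
whose real part is `≤ -2κ` at the centre (`Blk.hes`), so for `v` close to the centre there is `j0`
close to `v 3` with `f(j0, 0) = 0`, and `j0 - v 3 = (p/q) ζ (1 + small)`, `p = PH .. e3 0 0 1`
(contraction or mean value theorem: all second derivatives are close to their values at the
centre, which are real).  By (A) at `j0` and the mean value theorem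
`PG α v ζ 0 1 = PG α v ζ 0 1 - PG α (v with j0) 0 0 1 = (s - p²/q) ζ (1 + small)`,
`s = PH .. 0 1 0 1`, and `Kz = -(s - p²/q) > 0` because the matrix `(q, p; p, s)` is negative
definite (`Blk.hes`).  If `α 1 = 0`: `Kz = -s`. -/
def S_ZZ : Prop := S_LC → S_LTd → ∀ (α : Fin 6 → ℝ) (r κ K C0 : ℝ), Fr α → Blk α r κ K C0 →
  ∃ Kz : ℝ, 0 < Kz ∧ ∀ ε : ℝ, 0 < ε → ∃ ρ : ℝ, 0 < ρ ∧ ρ < r ∧ ∀ v ∈ Metric.ball (vC α) ρ, Adm α v →
    ∀ ζ : ℂ, ‖ζ‖ < ρ → (α 1 ≠ 0 → PG α v ζ e3 0 = 0) → ‖PG α v ζ 0 1 + Kz * ζ‖ ≤ ε * ‖ζ‖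

end Pool.Agent.Q99.HT
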