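import Pool.Agent.Q99.HT.Stm2

/-!
# Highly twisted links on arbitrary planar shadows, part 3: from sums to integrals
-/

set_option autoImplicit false

namespace Pool.Agent.Q99.HT

open Finset Filter Topology MeasureTheory
open Pool.Agent.W719.BS (D LL)
open Pool.Agent.Q99.FAL (bq hh S_T1)
open Pool.Agent.Q99.KN (sn bc Wk zl ez Fk cz S_PF S_WR LC bb Gm St ct S_LC S_GAM S_PX S_PZ QZ kz th jN)

/-- continuous, and complex differentiable along all complex lines -/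
def LD {E : Type} [NormedAddCommGroup E] [NormedSpace ℂ E] (f : E → ℂ) (U : Set E) : Prop :=
  ContinuousOn f U ∧ ∀ x ∈ U, ∀ u : E, DifferentiableAt ℂ (fun t : ℂ => f (x + t • u)) 0

/-- the ends of an interval around lattice points -/
noncomputable def lo (N : ℕ) (a : ℤ) : ℝ := ((a : ℝ) - 1 / 2) / N
noncomputable def hi (N : ℕ) (b : ℤ) : ℝ := ((b : ℝ) + 1 / 2) / N

/-- **a sum as an integral** (general form of `S_PX`).

Proof.  As `S_PX` (`Q162/KN/PX.lean`, `Rect.lean`): Cauchy's formula on the rectangle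
`[lo, hi] × [-τ, τ]` with the kernel `π N cot (π N ξ)`, which is bounded on the vertical sides (at
half-integers) and is `∓ iπ N + O(N e^{-2πNτ})` on the horizontal sides; then the lines are moved to
`Im = η`.  The horizontal sides have the length `(b - a + 1)/N`, the vertical ones at most `2 τ ≤ 2`. -/
def S_GPX : Prop := ∃ C : ℝ, 0 ≤ C ∧ ∀ N : ℕ, 1 ≤ N → ∀ a b : ℤ, a ≤ b → ∀ (f : ℂ → ℂ) (U : Set ℂ)
  (τ η A B : ℝ), IsOpen U → DifferentiableOn ℂ f U → 1 ≤ τ * N → τ ≤ 1 → |η| ≤ τ →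
  (∀ x ∈ Set.Icc (lo N a) (hi N b), ∀ t ∈ Set.Icc (-τ) τ, (x + t * Complex.I : ℂ) ∈ U) →
  (∀ x ∈ Set.Icc (lo N a) (hi N b), ‖f (x + τ * Complex.I)‖ ≤ A ∧ ‖f (x - τ * Complex.I)‖ ≤ A) →
  (∀ t ∈ Set.Icc (-τ) τ, ‖f (lo N a + t * Complex.I)‖ ≤ B ∧ ‖f (hi N b + t * Complex.I)‖ ≤ B) →
  ‖∑ y ∈ Icc a b, f ((y : ℂ) / N) - N * ∫ x in (lo N a)..(hi N b), f (x + η * Complex.I)‖ ≤
    C * (N + ((b : ℝ) - a + 1)) * (Real.exp (-(2 * Real.pi * τ * N)) * A + B)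

/-- the closed polyrectangle -/
def PR {d : ℕ} (N : ℕ) (a b : Fin d → ℤ) (τ : ℝ) : Set (Fin d → ℂ) :=
  {X | ∀ i, (X i).re ∈ Set.Icc (lo N (a i)) (hi N (b i)) ∧ |(X i).im| ≤ τ}

/-- **the same in several variables.**

Proof.  One coordinate after the other (induction on `d` with `Fin.cons`, or hybrid expressions: sum
over the coordinates `≥ i`, `N ∫` over those `< i`).  In one step the other coordinates are fixed
at lattice points or at points `x + i η`, and `S_GPX` is applied to the slice `t ↦ f (update X i t)`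
(differentiable by `LD`, since `update X i (s + t) = update X i s + t • Pi.single i 1`; the open set is
the preimage of `U`).  The number of lattice points, and `N` times the length, are at most `L N` in
each coordinate, so each step costs `C (1 + L) N (L N)^(d-1) (…)`.  Fubini for functions which are
continuous on the compact box (`MeasureTheory.volume_preserving_piFinSuccAbove` or similar). -/
def S_MPX : Prop := S_GPX → ∀ d : ℕ, ∃ C : ℝ, 0 ≤ C ∧ ∀ N : ℕ, 1 ≤ N → ∀ a b : Fin d → ℤ,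
  (∀ i, a i ≤ b i) → ∀ (f : (Fin d → ℂ) → ℂ) (U : Set (Fin d → ℂ)) (τ A B L : ℝ) (η : Fin d → ℝ),
  IsOpen U → LD f U → PR N a b τ ⊆ U → 1 ≤ τ * N → τ ≤ 1 → (∀ i, |η i| ≤ τ) → 1 ≤ L →
  (∀ i, (b i : ℝ) - a i + 1 ≤ L * N) → (∀ X ∈ PR N a b τ, ‖f X‖ ≤ A) →
  (∀ X ∈ PR N a b τ, (∃ i, (X i).re = lo N (a i) ∨ (X i).re = hi N (b i)) → ‖f X‖ ≤ B) →
  ‖∑ t ∈ Fintype.piFinset (fun i => Icc (a i) (b i)), f (fun i => (t i : ℂ) / N) -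
    N ^ d * ∫ x in Set.univ.pi (fun i => Set.Icc (lo N (a i)) (hi N (b i))),
      f (fun i => x i + η i * Complex.I)‖ ≤
    C * (L * N) ^ d * (Real.exp (-(2 * Real.pi * τ * N)) * A + B)

/-- **a function which is small at the lattice points is small near the real axis.**

Proof.  Let `S(ζ) = sin (π (N ζ - N + 1) / 2)`; its zeros are the lattice points
`zl N k / N`, `k ∈ ℤ`, with `|S'| = π N / 2` there.  Let `R` be the rectangle `|Re ζ| ≤ θ`,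
`|Im ζ| ≤ Y`, with `θ` in `[5r/8, 3r/4]` such that `N θ` is an integer congruent to `N` modulo `2`
(then `|S| = cosh (π N t / 2) ≥ 1` on the vertical sides), `Y > 0` fixed and small.  For `ζ` in
the interior, not a lattice point, by the residue theorem
`Δ(ζ) = S(ζ) · ((1/2πi) ∮_{∂R} Δ(ω) / (S(ω) (ω - ζ)) dω - ∑_k Δ(ω_k) / (S'(ω_k) (ω_k - ζ)))`.
Let `|Re ζ| ≤ r/2`, `|Im ζ| ≤ y0 ≤ Y/2`.  `|S(ζ)| ≤ e^{πN y0/2}`,
`|S(ζ) / (ζ - ω_k)| ≤ (πN/2) e^{πN y0/2}` (`|sin u| ≤ |u| e^{|Im u|}`), at most `N` lattice points: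
the sum is at most `N M e^{-c1 N + πN y0/2}`.  Horizontal sides: `|S| ≥ sinh (πNY/2) ≥ e^{πNY/2}/4`,
`|ω - ζ| ≥ Y/2`, `|Δ| ≤ M e^{K Y² N}`: choose `K Y² ≤ πY/8`, `y0 ≤ Y/4`.  Vertical sides:
`|ω - ζ| ≥ r/8`, `|Δ| ≤ M e^{N (-κ (5r/8)² + K Y²)}`: choose `K Y² ≤ κ (5r/8)²/4`,
`π y0/2 ≤ κ (5r/8)²/4`, and `π y0/2 ≤ c1/2`.  At a lattice point by continuity.
(Only lattice points with `0 ≤ k < N` lie in `R`, as `θ < 1`; instead of the residue theorem one may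
use that `Δ - ∑_k Δ(ω_k) S / (S'(ω_k) (· - ω_k))` is divisible by `S` and Cauchy's formula.) -/
def S_INT : Prop := ∀ r κ K c1 : ℝ, 0 < r → r ≤ 1 / 16 → 0 < κ → 0 < K → 0 < c1 →
  ∃ y0 c2 C : ℝ, 0 < y0 ∧ 0 < c2 ∧ ∃ N0 : ℕ, ∀ N : ℕ, N0 ≤ N → ∀ (Δ : ℂ → ℂ) (M : ℝ), 0 ≤ M →
  DifferentiableOn ℂ Δ (Metric.ball 0 r) →
  (∀ ζ ∈ Metric.ball (0 : ℂ) r, ‖Δ ζ‖ ≤ M * Real.exp (N * (-κ * ζ.re ^ 2 + K * ζ.im ^ 2))) →
  (∀ k < N, |(2 * (k : ℝ) + 1 - N) / N| < r → ‖Δ (zl N k / N)‖ ≤ M * Real.exp (-(c1 * N))) →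
  ∀ ζ : ℂ, |ζ.re| ≤ r / 2 → |ζ.im| ≤ y0 → ‖Δ ζ‖ ≤ C * N * M * Real.exp (-(c2 * N))

/-- `S_PZ` for functions which are not odd.

Proof.  `S_PZ` for `g ζ = (f ζ - f (-ζ)) / 2`; the derivatives of the even part at the lattice points
`k` and `N - 1 - k` cancel; `QZ` is linear (the functions are continuous on the line). -/
def S_PZ2 : Prop := S_PZ → ∀ ρ : ℝ, 0 < ρ → ρ ≤ 1 / 16 → ∃ C : ℝ, ∀ N : ℕ, 16 / ρ ≤ N →
  ∀ f : ℂ → ℂ, DifferentiableOn ℂ f (Metric.ball 0 ρ) → ∀ y B : ℝ, 0 < y → y ≤ ρ / 2 →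
  (∀ t ∈ Set.Icc (-y) y, ‖f (th ρ N + t * Complex.I)‖ ≤ B ∧ ‖f (-th ρ N + t * Complex.I)‖ ≤ B) →
  ‖∑ k ∈ Ico (jN ρ N) (N - jN ρ N), deriv (fun z : ℂ => f (z / N)) (zl N k) -
    (QZ ρ N y f + QZ ρ N y (fun ζ => -f (-ζ))) / 2‖ ≤ C * N * B

/-! ### a region -/

/-- the bounds at the lattice points (`S_TW`, `S_BB`) -/
structure Lat (α : Fin 6 → ℝ) (κ C0 : ℝ) : Prop where
  tw : ∀ N A b C j k : ℕ, A + b + C < N → Cmp α A b C → j ≤ b → k < N →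
    A ≤ k → A + k < N → C ≤ k → C + k < N →
    ‖Tm N (zl N k) A b C j‖ + ‖deriv (fun z => Tm N z A b C j) (zl N k)‖ ≤ C0 * N ^ 2 *
      Real.exp (eX N α A b C - κ * (dX N α A b C k + ((j : ℝ) - N * α 1) ^ 2) / N)
  bb : ∀ N A b C k : ℕ, A + b + C < N → Cmp α A b C → k < N →
    ‖Wk N (zl N k) A b C‖ + ‖deriv (fun z => Wk N z A b C) (zl N k)‖ ≤ C0 * N ^ 3 *
      Real.exp (eX N α A b C - κ * dX N α A b C k / N)
  ev : ∀ N A b C : ℕ, A + b + C < N → ∀ z : ℂ, Wk N (-z) A b C = Wk N z A b C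

/-- the corners of the centre -/
noncomputable def qC (α : Fin 6 → ℝ) : Fin 3 → ℂ := fun i => (qc α i : ℂ)

/-- outer corners vanish -/
def Ad3 (α : Fin 6 → ℝ) (ξ : Fin 3 → ℂ) : Prop := ∀ i, qc α i = 0 → ξ i = 0

/-- the real parts -/
def re3 (ξ : Fin 3 → ℂ) : Fin 3 → ℝ := fun i => (ξ i).re

/-- the integral over the summation index, on the line `Im = η` -/
noncomputable def VB (r : ℝ) (N : ℕ) (α : Fin 6 → ℝ) (η : ℝ) (ξ : Fin 3 → ℂ) (ζ : ℂ) : ℂ :=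
  if α 1 = 0 then PB N α ![ξ 0, ξ 1, ξ 2, 0] ζ else
    N * ∫ x in (lo N ⌈(N : ℝ) * (α 1 - r / 4)⌉)..(hi N ⌊(N : ℝ) * (α 1 + r / 4)⌋),
      PB N α ![ξ 0, ξ 1, ξ 2, x + η * Complex.I] ζ

/-- the analytic continuation of `Fk` -/
noncomputable def FZ (r : ℝ) (N : ℕ) (α : Fin 6 → ℝ) (w : ℤ) (y η : ℝ) (ξ : Fin 3 → ℂ) : ℂ :=
  QZ r N y fun ζ => ez N w (N * ζ) * Complex.sin (Real.pi * ζ) * VB r N α η ξ ζ

/-- **the step in the summation index.**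

Proof.  Let `α 1 ≠ 0` (for `α 1 = 0`: `b = 0`, `Wk = Tm` with `j = 0`, `Blk.int`, `Blk.maj`, and the
difference in (3) is `0`).  For `N ≥ N0`, `|η| ≤ τ0 ≤ r/4` the points `(ξ, x + iη)` are in the ball of
radius `r` around `vC`.  (1): the integrand is jointly differentiable (`Blk.diff`), the interval is
compact: continuity and differentiation under the integral along lines.  (2): `Blk.maj`
(`v 3 = x + iη` contributes `K η²`; drop `- κ (x - α 1)²`; the length is `≤ 1`).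
(3): `Wk N z A b C = ∑_{j ≤ b} Tm N z A b C j`.  Let `a1 = ⌈N (α1 - r/4)⌉`, `b1 = ⌊N (α1 + r/4)⌋`
(`0 ≤ a1`, `b1 ≤ b` by `sml`).  For `j ∉ [a1, b1]`: `(j - N α1)² ≥ (N r/4)²`, `Lat.tw`
(`A ≤ k` etc. because `α 0, α 3 ≤ 1/4` and `|z| ≤ r N/2`) gives `e^{-κ (r/4)² N}`, for the value and
the derivative.  For `j ∈ [a1, b1]` and `|ζ - zl N k / N| ≤ 1/N`: `Tm N (Nζ) A b C j = PB N α (q/N, j/N) ζ`
(`Blk.int`), and `S_GPX` with a fixed small `τ` for `f(x) = PB N α (q/N, x) ζ`: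
`A = C0 exp (N (v0 + mR + K τ²) + O(1))`, `B = C0 exp (N (v0 + mR - κ (r/4)² + K τ²) + O(1))`
(`|Im ζ| ≤ 1/N`); choose `τ ≤ r/8` with `K τ² ≤ π τ`, `K τ² ≤ κ (r/4)²/2`, and `τ0 = τ`.  The
difference `D(ζ) = ∑_{j∈[a1,b1]} PB - VB` is analytic in `ζ`, bounded by
`C N exp (N (v0 + mR - c1))` for `|ζ - zl N k/N| ≤ 1/N`; Cauchy's estimate (radius `1` in `z`)
bounds its derivative in `z`. -/
def S_SJ : Prop := S_GPX → ∀ (α : Fin 6 → ℝ) (r κ K C0 : ℝ), Fr α → Acu α → Blk α r κ K C0 →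
  Lat α κ C0 → ∃ τ0 c1 : ℝ, 0 < τ0 ∧ 0 < c1 ∧ ∀ η : ℝ, |η| ≤ τ0 → ∃ C : ℝ, ∃ p N0 : ℕ,
  ∀ N : ℕ, N0 ≤ N →
  LD (fun q : (Fin 3 → ℂ) × ℂ => VB r N α η q.1 q.2)
    (Metric.ball (qC α) (r / 2) ×ˢ Metric.ball 0 r) ∧
  (∀ ξ ∈ Metric.ball (qC α) (r / 2), Ad3 α ξ → ∀ ζ : ℂ, ‖ζ‖ < r → ‖VB r N α η ξ ζ‖ ≤
    C * N * Real.exp (N * (v0 α + K * η ^ 2 + mR α (re3 ξ) - κ * (sR α (re3 ξ) + ζ.re ^ 2) +
      K * (∑ i, (ξ i).im ^ 2 + ζ.im ^ 2)))) ∧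
  ∀ A b C' k : ℕ, Cmp α A b C' → |(A : ℝ) / N - α 0| ≤ r / 4 →
    |(b : ℝ) / N - (α 1 + α 4)| ≤ r / 4 → |(C' : ℝ) / N - α 3| ≤ r / 4 → k < N →
    |(2 * (k : ℝ) + 1 - N) / N| ≤ r / 2 →
    ‖Wk N (zl N k) A b C' -
      VB r N α η ![(A : ℂ) / N, (b : ℂ) / N, (C' : ℂ) / N] (zl N k / N)‖ +
    ‖deriv (fun z => Wk N z A b C') (zl N k) - deriv (fun z : ℂ =>
      VB r N α η ![(A : ℂ) / N, (b : ℂ) / N, (C' : ℂ) / N] (z / N)) (zl N k)‖ ≤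
      C * N ^ p * Real.exp (eX N α A b C' - c1 * N)

/-- **the weight of a region near the centre.**

Proof.  (1): on the line `Im ζ = y > 0` the function `kz` is continuous and bounded by a constant
(`|sin (a + ib)| ≥ |sinh b|`), `|x| ≤ th ≤ r/4 < r`; continuity and differentiation under the integral
along lines, by `S_SJ` (1).  (2): `S_SJ` (2), `|ez N w (Nζ)| = exp (-π w N x y / 2)`, and
`- π w x y / 2 - κ x² ≤ (π w y)² / (16 κ)` (as `S_BQ`).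
(3): Let `M = C N^p exp (eX)`.  `Fk` is the sum over all `k < N`.  For `k` outside the core
`[jN, N - jN)`: `|2k + 1 - N| ≥ N th ≥ N r/4 - 2`, `Lat.bb` and `|ez| = 1` etc.: at most
`M e^{-cN}`.  In the core replace `Wk` by `VB` (`S_SJ` (3), product rule; `ez`, `sin` and their
derivatives are bounded).  Then `S_PZ2` with `ρ = r` for `f ζ = ez N w (Nζ) sin (πζ) VB(q/N, ζ)`: on
the vertical sides `|ez| ≤ exp (N π |w| th y / 2)`, `|VB| ≤ M exp (N (-κ th² + K y²))`, small if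
`|w| y`, `y` are small.  The two integrals differ by `QZ` of `ez sin Δ`,
`Δ ζ = VB(q/N, ζ) - VB(q/N, -ζ)`.  At lattice points with `|ζ_k| < r/2`: `|Δ(ζ_k)| ≤ 2 M e^{-c1 N}`
by `S_SJ` (3) for `k` and `N - 1 - k`, and `Lat.ev`; `S_INT` (radius `r/2`) gives
`|Δ| ≤ M e^{-c2 N}` for `|Re ζ| ≤ r/4`, `|Im ζ| ≤ y0`; `|ez| ≤ exp (N π |w| y r/8)` is harmless if
`|w| y` is small.  (4): as `S_FB`, from `Lat.bb`. -/
def S_BN : Prop := S_GPX → S_PZ → S_PZ2 → S_INT → S_SJ →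
  ∀ (α : Fin 6 → ℝ) (r κ K C0 : ℝ), Fr α → Acu α → Blk α r κ K C0 → Lat α κ C0 →
  ∃ τ0 c1 : ℝ, 0 < τ0 ∧ 0 < c1 ∧ ∀ (w : ℤ) (y η : ℝ), 0 < y → y ≤ τ0 → |(w : ℝ)| * y ≤ τ0 →
  |η| ≤ τ0 → ∃ C : ℝ, ∃ p N0 : ℕ, ∀ N : ℕ, N0 ≤ N →
  LD (FZ r N α w y η) (Metric.ball (qC α) (r / 2)) ∧
  (∀ ξ ∈ Metric.ball (qC α) (r / 2), Ad3 α ξ → ‖FZ r N α w y η ξ‖ ≤ C * N ^ p *
    Real.exp (N * (v0 α + (K * η ^ 2 + (Real.pi * w * y) ^ 2 / (16 * κ) + K * y ^ 2) +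
      mR α (re3 ξ) - κ * sR α (re3 ξ) + K * ∑ i, (ξ i).im ^ 2))) ∧
  (∀ A b C' : ℕ, Cmp α A b C' → |(A : ℝ) / N - α 0| ≤ r / 4 →
    |(b : ℝ) / N - (α 1 + α 4)| ≤ r / 4 → |(C' : ℝ) / N - α 3| ≤ r / 4 →
    ‖Fk N w A b C' - FZ r N α w y η ![(A : ℂ) / N, (b : ℂ) / N, (C' : ℂ) / N]‖ ≤
      C * N ^ p * Real.exp (eX N α A b C' - c1 * N)) ∧
  ∀ A b C' : ℕ, A + b + C' < N → Cmp α A b C' → ‖Fk N w A b C'‖ ≤ C * N ^ p *
    Real.exp (eX N α A b C' - κ * N * sR α ![(A : ℝ) / N, (b : ℝ) / N, (C' : ℝ) / N])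

end Pool.Agent.Q99.HT
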