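import Pool.Agent.Q99.HT.Stm4
import Pool.Agent.Q99.FAL.Stm4

/-!
# Highly twisted links on arbitrary planar shadows, part 5: diagrams

`D : List Pc` is a diagram of the project FAL; only the types and positions of its pieces are used
here, the crossings are given by `f : Fin D.length → Bool × ℕ` and there are no circles.

All statements on `Sol`, `Out`, `Net` proved in the project FAL may be used: `task_SO`, `task_OZ`,
`task_SUR`, `task_NC` (`Q237/FAL`), `task_SP`, `task_DIM`, `task_CN`, `task_LB`, `task_CR`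
(`Q299/FAL`), `task_GD` (`Q224/FAL/GD.lean`), `task_UNR` (`Q149/FAL/UNR.lean`), `task_MAX`
(`Q151/FAL/MAX.lean`); they are collected in `Pool/Agent/Q99/FAL/Asm.lean`.
-/

set_option autoImplicit false

namespace Pool.Agent.Q99.HT

open Finset Filter Topology MeasureTheory
open Pool.Agent.W715.VC (rt)
open Pool.Agent.W709.QAT (Piece run)
open Pool.Agent.Q191.LB (sg)
open Pool.Agent.Q99.FAL (bq hh S_T1 Pc Ty Val Pri Pos AS Sol Out c6 fV n1 n2 cor dn Net up wd stp cls
  zz IsLat nV toR eij)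
open Pool.Agent.Q99.KN (sn bc Wk zl ez Fk cz LC bb Gm St ct S_LC S_GAM S_PZ QZ kz th jN S_LAP S_GIM
  Gp Rgn tw elg SG S_JG S_GG TGall S_ZG F2 S_TO S_PF S_WR S_SY tet S_BW)

/-! ### the link and its state sum -/

/-- the elementary parts of a piece with `m` crossings of the sign `σ`, without circle -/
def elh (T : Ty) (p : ℕ) (σ : Bool) (m : ℕ) : List Piece :=
  match T with
  | .V => [Piece.twist p σ m]
  | .H => Piece.cup (p + 2) :: ([Piece.twist (p + 1) σ m] ++ [Piece.cap p])
  | .YL => Piece.cup (p + 1) :: [Piece.twist p σ m]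
  | .YR => Piece.cup p :: [Piece.twist (p + 1) σ m]
  | .LL => [Piece.twist p σ m] ++ [Piece.cap (p + 1)]
  | .LR => [Piece.twist (p + 1) σ m] ++ [Piece.cap p]

/-- the link of `D` with the crossings `f` -/
def lnk : (D : List Pc) → (Fin D.length → Bool × ℕ) → List Piece
  | [], _ => []
  | P :: D, f => elh P.ty P.p (f 0).1 (f 0).2 ++ lnk D (fun k => f k.succ)

/-- the signed numbers of crossings -/
def wf {n : ℕ} (f : Fin n → Bool × ℕ) : Fin n → ℤ := fun k => sg (f k).1 * ((f k).2 : ℤ)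

/-- the weight of a region, times `π` -/
noncomputable def tp (N : ℕ) (w : ℤ) (x : Fin 6 → ℤ) : ℂ :=
  if x 4 = 0 ∧ x 5 = 0 then Fk N w (x 0).toNat (x 1).toNat (x 3).toNat else 0

open Classical in
/-- the state sum over all solutions -/
noncomputable def ZD (N : ℕ) (D : List Pc) (w : Fin D.length → ℤ) : ℂ :=
  ∑ a : Fin D.length → Fin 6 → Fin N,
    if Sol D (fun k => zz (a k)) [0, 0] ((N : ℤ) - 1) then ∏ k, tp N (w k) (zz (a k)) else 0

/-- **the Kashaev invariant as a state sum.**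

Proof.  `S_JG` for the list of `⟨P.ty, P.p, tw N σ m⟩` (defined recursively from `D` and `f`; its
elementary parts are `lnk D f`, its length is `D.length`, `Vag` follows from `Val`, `Ok` is `S_TO`).
`SG` unrolled as in `task_UNR` (`Q149/FAL/UNR.lean`), by induction on `D` for all `G`; the weights are
`tp / π`. -/
def S_SGD : Prop := F2 → S_TO → S_JG → S_GG → TGall → S_ZG →
  ∀ N : ℕ, ∀ h : 0 < N, ∀ (D : List Pc) (f : Fin D.length → Bool × ℕ), Val D 1 →
  ∃ θ : ℂ, ‖θ‖ = 1 ∧ run N (rt N) (lnk D f) (fun l => if l = [⟨0, h⟩] then 1 else 0) [⟨0, h⟩] =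
    θ * (N / Real.pi) ^ D.length * ZD N D (wf f)

/-! ### the network of a diagram -/

/-- the angles with the corners on the right and on the left exchanged -/
def bf {R : Type} (β : Bool) (x : Fin 6 → R) : Fin 6 → R :=
  if β then x else ![x 0, x 2, x 1, x 3, x 5, x 4]

/-- the three corners: below, right (`β = true`) or left, above -/
def cv {R : Type} [Add R] (β : Bool) (x : Fin 6 → R) : Fin 3 → R :=
  ![x 0, if β then x 1 + x 4 else x 2 + x 5, x 3]

/-- a solution of the equations with the outer angles zero -/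
def So {R : Type} [CommRing R] (D : List Pc) (x : Fin D.length → Fin 6 → R) (u : R) : Prop :=
  Sol D x [0, 0] u ∧ ∀ k i, Out D 1 k (c6 i) → x k i = 0

/-- `Y` is the network of the diagram `D` with the angles `a` -/
structure NetOf (D : List Pc) (a : Fin D.length → Fin 6 → ℝ) (β : Fin D.length → Bool) {d : ℕ}
    (Y : Nw D.length d) : Prop where
  be : ∀ s, β s = true ↔ a s 1 ≤ a s 2
  al : ∀ s, Y.α s = bf (β s) (a s)
  q0 : ∃ a0 : Fin D.length → Fin 6 → ℤ, So D a0 1 ∧ ∀ s, Y.q0 s = cv (β s) (a0 s)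
  E1 : ∀ j, ∃ δ : Fin D.length → Fin 6 → ℤ, So D δ 0 ∧ ∀ s, Y.E j s = cv (β s) (δ s)
  E2 : ∀ δ : Fin D.length → Fin 6 → ℤ, So D δ 0 →
    ∃! t : Fin d → ℤ, ∀ s i, cv (β s) (δ s) i = ∑ j, t j * Y.E j s i
  inj : ∀ t : Fin d → ℝ, (∀ s i, ∑ j, t j * Y.E j s i = 0) → t = 0
  ctr : ∀ s i, qc (Y.α s) i = Y.q0 s i + ∑ j, Y.τ j * Y.E j s i

/-- a positive angle structure of maximal volume -/
def Mx (D : List Pc) (a : Fin D.length → Fin 6 → ℝ) : Prop :=
  Pos D a ∧ ∀ a' ∈ AS D, fV a' ≤ fV a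

/-- **the network exists.**

Proof.  `a0` from `task_SUR` (as in `task_GD`).  `L = {δ | So D δ 0}` is a submodule of
`Fin c → Fin 6 → ℤ` (`task_SO`), `L' = {(δ 0, corner, 0, δ 3, 0, 0)}` its image under the linear map
`cv` (written with six entries), so `task_LB` for the net `⟨L', …⟩` gives a basis which is
independent over `ℝ` and spans the real span of `L'`.  `ctr`: `a - a0` is a real solution, in the real
span of `L` (`task_SP`), so its corners are in the real span of `L'`;
`qc (bf β a) = cv β a`. -/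
def S_NE : Prop := ∀ D : List Pc, Val D 1 → Pri D 1 → D ≠ [] → ∀ a : Fin D.length → Fin 6 → ℝ,
  Mx D a → ∃ (d : ℕ) (β : Fin D.length → Bool) (Y : Nw D.length d), NetOf D a β Y

/-- **the network is good.**

Proof.  Let `X` be the net of `task_GD` for `p = a` (strengthened: `X.L` is the lattice of `IsLat`, see
the proof of `task_GD`); `a` is `Top` (`X.Top a a`).  `Fr`: `s1`, `s2` (`n1 = n2 = 1/2`); `a s i = 0` iff
the corner is outer, so `a 1 = 0 ↔ a 4 = 0`, `a 2 = 0 ↔ a 5 = 0`, and by `Good.s3` not both; `p2`, `p5`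
by the choice of `β`; `nd` by `Good.s4`; `cr`: if neither corner is outer then `eij s 1 4 - eij s 2 5`
is in `X.L` and `task_CR` gives `log tan a1 + log tan a5 = log tan a2 + log tan a4`.
`Acu`: `o12` by `β`; `o45` from `cr` and monotonicity of `tan`.
`crit`: let `δ ∈ L` have the corners `E_j`; replace it by
`δ' = bf β (A, b, -A-b, C, 0, -C)` (`A, b, C` its corners), which has the same four corners, so
`δ' - δ` is a combination of the `eij s 1 4`, `eij s 2 5` (`z1`, `z2`; at outer corners both vanish),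
and `n1 δ' = n2 δ' = 0`; `task_CR` for `δ'` is `- ∑ ml · E_j = 0`
(`A log tan α0 + b log tan α1 - (A+b) log tan α2 + C log tan α3 - C log tan α5`; `log (x/y) =
log x - log y` for the tangents which are not `0`; if `α 2 = 1/2` then `A = b = 0`).
`zer`: if `qc = 0` then the corner is outer. -/
def S_NO : Prop := ∀ D : List Pc, Val D 1 → Pri D 1 → D ≠ [] → ∀ a : Fin D.length → Fin 6 → ℝ,
  Mx D a → (∀ k, a k 0 ≤ 1 / 4 ∧ a k 3 ≤ 1 / 4) → ∀ (d : ℕ) (β : Fin D.length → Bool)
  (Y : Nw D.length d), NetOf D a β Y → Y.Ok ∧ ∑ s, v0 (Y.α s) = fV a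

/-- **the number of the variables.**

Proof.  `2 c + rank L = nV a + 3` (`task_GD`, or `task_DIM` and `task_CN`).  `nV a = Y.nA`: a bracket
of a region has the centre `0` iff the corresponding angle is `0` (numbers `0, 1, 3, 4`) or `1/2`
(numbers `2, 5`); `α 2, α 5 ≠ 0`, and `α 0, α 1, α 3, α 4 ≠ 1/2`.
`rank L = d + nJ + c`, `nJ` the number of `s` with `α s 1 ≠ 0`: the corners map `L` onto a free module
of rank `d` (`E1`, `E2`, `inj`), and the kernel (all four corners zero) is free with the basis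
`eij s 1 4` (right corner not outer), `eij s 2 5` (left corner not outer); there are two of them if
`α s 1 ≠ 0` and one otherwise.  `card Y.Ix = d + nJ + c`. -/
def S_NR : Prop := ∀ D : List Pc, Val D 1 → Pri D 1 → D ≠ [] → ∀ a : Fin D.length → Fin 6 → ℝ,
  Mx D a → ∀ (d : ℕ) (β : Fin D.length → Bool) (Y : Nw D.length d), NetOf D a β Y →
  Fintype.card Y.Ix + 2 * D.length = Y.nA + 3

/-- **the state sum of the network.**

Proof.  A term of `ZD` is different from `0` only if `x 4 = x 5 = 0` for all regions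
(`x = zz (a k)`), and such a solution `x` is determined by the corners `cv (β s) (x s)`
(`x 0 + x 1 + x 2 + x 3 = N - 1`); the outer angles vanish by `task_OZ`, so `x - (N - 1) a0` is in `L`
and `cv x = Y.q N t` for a unique `t` (`E2`), with `Ps N (Y.q N t s)`.  Conversely, if
`Ps N (Y.q N t s)` for all `s`, then `y = (N - 1) a0 + ∑ t_j δ_j` is a solution with these corners, and
replacing `y 1`, `y 4` by `y 1 + y 4`, `0` and `y 2`, `y 5` by `y 2 + y 5`, `0` does not change the corners,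
hence gives a solution (`Sol_cor` in `Q224/FAL/GD.lean`) with values in `[0, N)`.  The weights agree:
for `β = false` by `S_SY` (`Wk A β C = Wk A γ C`, so `Fk` too). -/
def S_NZ : Prop := S_PF → S_WR → S_SY → ∀ D : List Pc, Val D 1 → Pri D 1 → D ≠ [] →
  ∀ a : Fin D.length → Fin 6 → ℝ, Mx D a → ∀ (d : ℕ) (β : Fin D.length → Bool)
  (Y : Nw D.length d), NetOf D a β Y → ∀ N : ℕ, 0 < N → ∀ w : Fin D.length → ℤ,
  ZD N D w = Y.Z N w

/-! ### complex angle structures -/

/-- complex angles from the variables of the network -/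
noncomputable def sx (β : Bool) (h : ℂ) (v : Fin 4 → ℂ) (ζ : ℂ) : Fin 6 → ℂ :=
  bf β ![v 0, v 3, h + ζ / 2 - v 0 - v 3, v 2, v 1 - v 3, h - ζ / 2 - v 2 - (v 1 - v 3)]

/-- the derivative of the potential in the direction `δ`; `w` are the numbers of crossings -/
noncomputable def GI {c : ℕ} (w : Fin c → ℤ) (x δ : Fin c → Fin 6 → ℂ) : ℂ :=
  ∑ s, (∑ i, gT (dn (x s) i) (x s i) (dn (δ s) i) (δ s i) +
    (Complex.I * Real.pi * w s * (n1 (x s) - n2 (x s)) / 2 + Complex.I * Real.pi) *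
      (n1 (δ s) - n2 (δ s)))

/-- the potential -/
noncomputable def PI {c : ℕ} (w : Fin c → ℤ) (x : Fin c → Fin 6 → ℂ) : ℂ :=
  ∑ s, (∑ i, LT (dn (x s) i) (x s i) +
    Complex.I * Real.pi * w s * (n1 (x s) - n2 (x s)) ^ 2 / 4 +
      Complex.I * Real.pi * (n1 (x s) - n2 (x s)))

/-- a critical complex angle structure -/
def CrI (D : List Pc) (w : Fin D.length → ℤ) (x : Fin D.length → Fin 6 → ℂ) : Prop :=
  So D x 1 ∧ ∀ δ : Fin D.length → Fin 6 → ℂ, So D δ 0 → GI w x δ = 0

/-- the sum of the volumes of the ideal tetrahedra -/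
noncomputable def VI {c : ℕ} (x : Fin c → Fin 6 → ℂ) : ℝ :=
  ∑ s, ∑ i, (tet (Complex.exp (2 * Real.pi * Complex.I * x s i)) +
    tet (Complex.exp (2 * Real.pi * Complex.I * (dn (x s) i - x s i))))

/-- **complex angle structures and the variables of the network.**

Proof.  (1) A complex solution is a real one plus `i` times a real solution of the homogeneous
equations.  `u = 0`: a real solution `δ` is in the real span of the integral ones (`task_SP`), so its
corners are `∑ T_j E_j` (uniqueness by `inj`); `ζ = n1 - n2`, `v 3` is the angle `1` (or `2` if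
`β = false`), zero if it is outer, i.e. if `α 1 = 0`.  Conversely `(T, J, ζ)` gives a vector with the
corners of a solution; only the corners matter for `Sol` (`Sol_cor`), and the outer angles vanish:
outer corners are among `v 0`, `v 1` (with `v 3 = J = 0`), `v 2`, not the eliminated corner (`a s 2`,
`a s 5` resp. `a s 1`, `a s 4` are positive).  `u = 1`: add `a0`.
(2) (3) The identities hold term by term: `gT ν (ν - ξ) a (a - b) = gT ν ξ a b`,
`LT ν (ν - ξ) = LT ν ξ`; the angles with the centre `0` or `1/2` are `0` or `ν` (`AJ`, `zer`),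
`gT ν 0 a 0 = 0 = gT ν ν a a`, `LT ν 0 = - LC 0 = 0 = LT ν ν` (`LC 0 = 0` because
`∫_0^{1/2} log (2 sin π t) dt = 0`). -/
def S_NT : Prop := S_LC → ∀ D : List Pc, Val D 1 → Pri D 1 → D ≠ [] →
  ∀ a : Fin D.length → Fin 6 → ℝ, Mx D a → ∀ (d : ℕ) (β : Fin D.length → Bool)
  (Y : Nw D.length d), NetOf D a β Y → Y.Ok →
  (∀ x : Fin D.length → Fin 6 → ℂ, So D x 1 ↔ ∃ (T : Fin d → ℂ) (J ζ : Fin D.length → ℂ), Y.AJ J ∧
    x = fun s => sx (β s) (1 / 2) (Y.v T J s) (ζ s)) ∧
  (∀ x : Fin D.length → Fin 6 → ℂ, So D x 0 ↔ ∃ (T : Fin d → ℂ) (J ζ : Fin D.length → ℂ), Y.AJ J ∧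
    x = fun s => sx (β s) 0 (Y.dv T J s) (ζ s)) ∧
  (∀ (w : Fin D.length → ℤ) (T T' : Fin d → ℂ) (J ζ J' ζ' : Fin D.length → ℂ), Y.AJ J → Y.AJ J' →
    GI w (fun s => sx (β s) (1 / 2) (Y.v T J s) (ζ s))
      (fun s => sx (β s) 0 (Y.dv T' J' s) (ζ' s)) = Y.GP w T J ζ T' J' ζ') ∧
  ∀ (w : Fin D.length → ℤ) (T : Fin d → ℂ) (J ζ : Fin D.length → ℂ), Y.AJ J →
    PI w (fun s => sx (β s) (1 / 2) (Y.v T J s) (ζ s)) = Y.Ph w T J ζ

/-- **distances.**

Proof.  Both maps are affine and the centre corresponds to `a`; `(T, J, ζ) ↦ x` is injective (`inj`),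
so the distances are equivalent. -/
def S_NDi : Prop := ∀ D : List Pc, Val D 1 → Pri D 1 → D ≠ [] →
  ∀ a : Fin D.length → Fin 6 → ℝ, Mx D a → ∀ (d : ℕ) (β : Fin D.length → Bool)
  (Y : Nw D.length d), NetOf D a β Y → Y.Ok → ∃ C : ℝ, 1 ≤ C ∧
  ∀ (ρ : ℝ) (T : Fin d → ℂ) (J ζ : Fin D.length → ℂ), 0 < ρ →
  (Y.Nr ρ T J ζ → ∀ s i, ‖sx (β s) (1 / 2) (Y.v T J s) (ζ s) i - a s i‖ < C * ρ) ∧
  ((∀ s i, ‖sx (β s) (1 / 2) (Y.v T J s) (ζ s) i - a s i‖ < ρ) → Y.Nr (C * ρ) T J ζ)

/-- **the critical value is the volume.**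

Proof.  First `S_BW` extends to `0 < Re x < 1`: `2 π Re LC x = - tet (e^{2πix}) - 2π Im x Im (bb x)`:
for `Re x > 1/2` use `LC (1 - x) = - LC x`, `bb (1 - x) = bb x` and `tet (1/z) = - tet z` (for `z` not
real: `arg (1/z) = - arg z`, and the other two arguments are exchanged with a sign; `lbf` is odd);
for `Re x = 1/2` both sides vanish (`1 - x = conj x`; `tet` of a negative real number is `0`).  At
`x = 0` also both sides vanish (`LC 0 = 0`, `tet 1 = 0`).
Write `ν_i = dn (x s) i`, `x_i = x s i`.  `2 π Re ∑ LT (ν_i) (x_i)` is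
`∑ (tet(e^{2πi(ν_i - x_i)}) + tet(e^{2πi x_i}) - tet(e^{2πi ν_i}))
- 2π ∑ (Im ν_i Im (bb ν_i - bb (ν_i - x_i)) + Im x_i Im (bb (ν_i - x_i) - bb x_i))`; the terms
`tet(e^{2πi ν_i})` cancel (`n1 (x s) + n2 (x s) = 1`, three of each); the second sum is the imaginary
part of the part of `GI w x δ` without `w`, for the real direction `δ = Im x`, which is a solution of
the homogeneous equations; by `CrI` it is `- ∑_s Im ζ_s Im (π i w_s ζ_s/2 + π i)`,
`ζ_s = n1 - n2`, and `Re (π i w ζ²/4 + π i ζ) = - Im ζ · Im (π i w ζ/2 + π i)`.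
(`ρ` so small that the real parts of all `x_i ≠ 0`, `ν_i - x_i ≠ 0`, `ν_i` are in `(0, 1)`: an angle is
`0` exactly at the outer corners, and then `ν_i - x_i = ν_i`; `ν_i - x_i = 0` if the other two angles
of the triangle are outer.) -/
def S_VF : Prop := S_LC → S_BW → ∀ D : List Pc, Val D 1 → Pri D 1 → D ≠ [] →
  ∀ a : Fin D.length → Fin 6 → ℝ, Pos D a → ∃ ρ : ℝ, 0 < ρ ∧
  ∀ (w : Fin D.length → ℤ) (x : Fin D.length → Fin 6 → ℂ), CrI D w x →
  (∀ s i, ‖x s i - a s i‖ < ρ) → VI x = 2 * Real.pi * (PI w x).re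

end Pool.Agent.Q99.HT
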